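import Mathlib
import Pool.Agent.TH686.BA.Defs

/-!
# Interpretations, sequential theories, recursively enumerable theories, extensions of `S^1_2`

General definitions used in the statement of the main theorem.
-/

set_option autoImplicit false

namespace Pool.Agent.Helper364_SQ

open FirstOrder FirstOrder.Language

/-! ### Interpretations -/

/-- A translation of the language `L'` into the language `L` (of dimension `dim`, without
parameters): a domain formula, a formula for the identity, and a formula for each function symbol
and each relation symbol of `L'`. The variable `(i, j)` of the formula for a symbol is the `j`-th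
component of the `i`-th argument; in the formula for an `n`-ary function symbol the arguments are
the tuples with the indices `0, ..., n - 1` and the value is the tuple with the index `n`. -/
structure Interp (L' L : FirstOrder.Language.{0, 0}) where
  /-- the dimension -/
  dim : ℕ
  /-- the domain -/
  dom : L.Formula (Fin dim)
  /-- the identity -/
  eqv : L.Formula (Fin 2 × Fin dim)
  /-- the graphs of the functions -/
  func : ∀ {n : ℕ}, L'.Functions n → L.Formula (Fin (n + 1) × Fin dim)
  /-- the relations -/
  rel : ∀ {n : ℕ}, L'.Relations n → L.Formula (Fin n × Fin dim)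

namespace Interp

variable {L' L : FirstOrder.Language.{0, 0}} (K : Interp L' L)

/-- the tuples of elements of `M` that satisfy the domain formula -/
def Dom (M : Type) [L.Structure M] : Type := {x : Fin K.dim → M // K.dom.Realize x}

/-- The `L'`-structure `A` is the structure defined by the translation `K` in the `L`-structure
`M`, and `f` is the coordinate map: `f` maps the set of tuples which satisfy the domain formula
onto `A`, and for tuples of the domain the translations of identity, of the function symbols and of
the relation symbols hold in `M` if and only if identity, the functions and the relations hold of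
the images in `A`. -/
structure Realizes (M : Type) [L.Structure M] (A : Type) [L'.Structure A] (f : K.Dom M → A) :
    Prop where
  surj : Function.Surjective f
  eqv : ∀ x : Fin 2 → K.Dom M, K.eqv.Realize (fun p => (x p.1).1 p.2) ↔ f (x 0) = f (x 1)
  func : ∀ {n : ℕ} (F : L'.Functions n) (x : Fin (n + 1) → K.Dom M),
    (K.func F).Realize (fun p => (x p.1).1 p.2) ↔
      Structure.funMap F (fun i : Fin n => f (x i.castSucc)) = f (x (Fin.last n))
  rel : ∀ {n : ℕ} (R : L'.Relations n) (x : Fin n → K.Dom M),
    (K.rel R).Realize (fun p => (x p.1).1 p.2) ↔ Structure.RelMap R (fun i => f (x i))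

end Interp

/-- The theory `U` interprets the theory `T`: some translation defines in every model of `U` a
(nonempty) model of `T`. (By the completeness theorem this means that `U` proves the translations
of all theorems of `T`.) -/
def Interprets {L L' : FirstOrder.Language.{0, 0}} (U : L.Theory) (T : L'.Theory) : Prop :=
  ∃ K : Interp L' L, ∀ (M : Type) [L.Structure M] [Nonempty M], M ⊨ U →
    ∃ (A : Type) (_ : L'.Structure A) (_ : Nonempty A) (f : K.Dom M → A),
      K.Realizes M A f ∧ A ⊨ T

/-- `U` and `T` are mutually interpretable. -/
def MutuallyInterpretable {L L' : FirstOrder.Language.{0, 0}} (U : L.Theory) (T : L'.Theory) :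
    Prop := Interprets U T ∧ Interprets T U

/-! ### Sequential theories -/

/-- The theory `U` is sequential: it directly interprets adjunctive set theory. The formula `ε`
(in two variables, without parameters) translates membership; the domain is the whole universe and
identity is translated as identity. -/
def IsSequential {L : FirstOrder.Language.{0, 0}} (U : L.Theory) : Prop :=
  ∃ ε : L.Formula (Fin 2), ∀ (M : Type) [L.Structure M] [Nonempty M], M ⊨ U →
    (∃ x : M, ∀ y : M, ¬ ε.Realize ![y, x]) ∧
    ∀ x y : M, ∃ z : M, ∀ w : M, ε.Realize ![w, z] ↔ (ε.Realize ![w, x] ∨ w = y)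

/-! ### Recursively enumerable theories -/

section code

variable {L : FirstOrder.Language.{0, 0}} (eF : (Σ n, L.Functions n) → ℕ)
  (eR : (Σ n, L.Relations n) → ℕ)

/-- The Gödel number of a term; `v` gives the numbers of the variables. -/
def termCode {α : Type} (v : α → ℕ) : L.Term α → ℕ
  | .var x => Nat.pair 0 (v x)
  | .func (l := l) f ts =>
      Nat.pair 1 (Nat.pair (eF ⟨l, f⟩) (Encodable.encode (List.ofFn fun i => termCode v (ts i))))

/-- The number of a variable (the bound variables are numbered by their level). -/
def varCode {n : ℕ} : Empty ⊕ Fin n → ℕ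
  | Sum.inl e => e.elim
  | Sum.inr i => i

/-- The Gödel number of a formula without free variables other than those bound further outside. -/
def code : ∀ {n : ℕ}, L.BoundedFormula Empty n → ℕ
  | _, .falsum => Nat.pair 0 0
  | _, .equal s t => Nat.pair 1 (Nat.pair (termCode eF varCode s) (termCode eF varCode t))
  | _, .rel (l := l) R ts =>
      Nat.pair 2 (Nat.pair (eR ⟨l, R⟩)
        (Encodable.encode (List.ofFn fun i => termCode eF varCode (ts i))))
  | _, .imp φ ψ => Nat.pair 3 (Nat.pair (code φ) (code ψ))
  | _, .all φ => Nat.pair 4 (code φ)

end code

/-- The set of axioms `U` (in a language with finitely many symbols, which are numbered in some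
way) is recursively enumerable. -/
def IsRE {L : FirstOrder.Language.{0, 0}} (U : L.Theory) : Prop :=
  ∃ (eF : (Σ n, L.Functions n) → ℕ) (eR : (Σ n, L.Relations n) → ℕ),
    Function.Injective eF ∧ Function.Injective eR ∧
      REPred fun k : ℕ => ∃ σ ∈ U, code eF eR (σ : L.BoundedFormula Empty 0) = k

/-! ### Extensions of `S^1_2` -/

/-- The function symbols of `S^1_2`. -/
inductive BAFun : ℕ → Type
  | zero : BAFun 0
  | succ : BAFun 1
  | half : BAFun 1
  | len : BAFun 1
  | add : BAFun 2
  | mul : BAFun 2
  | smash : BAFun 2

/-- The relation symbol of `S^1_2`. -/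
inductive BARel : ℕ → Type
  | le : BARel 2

/-- The language `0, S, ⌊x/2⌋, |x|, +, ·, #, ≤` of `S^1_2`. -/
def LBA : FirstOrder.Language.{0, 0} := ⟨BAFun, BARel⟩

/-- An `LBA`-structure as a structure in the sense of `Pool.Agent.TH686.BA`. -/
def baStr (M : Type) [LBA.Structure M] : TH686.BA.Str where
  carrier := M
  zero := Structure.funMap (L := LBA) BAFun.zero ![]
  succ x := Structure.funMap (L := LBA) BAFun.succ ![x]
  add x y := Structure.funMap (L := LBA) BAFun.add ![x, y]
  mul x y := Structure.funMap (L := LBA) BAFun.mul ![x, y]
  half x := Structure.funMap (L := LBA) BAFun.half ![x]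
  len x := Structure.funMap (L := LBA) BAFun.len ![x]
  smash x y := Structure.funMap (L := LBA) BAFun.smash ![x, y]
  le x y := Structure.RelMap (L := LBA) BARel.le ![x, y]

/-- Polynomial induction for the formula `φ` (in the variable `0`; the other variables are
parameters): `φ(0) ∧ ∀ x (φ(⌊x/2⌋) → φ(x)) → ∀ x φ(x)`. -/
def PInd (M : TH686.BA.Str) {n : ℕ} (φ : TH686.BA.Fm (n + 1)) : Prop :=
  ∀ v : Fin n → M.carrier, φ.eval M (Fin.cons (α := fun _ => M.carrier) M.zero v) →
    (∀ x, φ.eval M (Fin.cons (α := fun _ => M.carrier) (M.half x) v) →
      φ.eval M (Fin.cons (α := fun _ => M.carrier) x v)) →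
    ∀ x, φ.eval M (Fin.cons (α := fun _ => M.carrier) x v)

/-- `M` is a model of `S^1_2`: the 32 axioms `BASIC` and polynomial induction for all
`Σᵇ₁`-formulas. -/
structure IsModelS12 (M : TH686.BA.Str) : Prop where
  basic : M.Basic
  pind : ∀ (n : ℕ) (φ : TH686.BA.Fm (n + 1)), TH686.BA.Lvl true 1 φ → PInd M φ

/-- The theory `T` in the language of `S^1_2` is an extension of `S^1_2`: every model of `T`
satisfies all axioms of `S^1_2`. (By the completeness theorem this means that `T` proves every
axiom of `S^1_2`.) -/
def ExtendsS12 (T : LBA.Theory) : Prop :=
  ∀ (M : Type) [LBA.Structure M], M ⊨ T → IsModelS12 (baStr M)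

end Pool.Agent.Helper364_SQ
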