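import Pool.Agent.Helper364_SQ.Stmts
import Pool.Agent.TH690.J100

/-!
The completeness theorem restricted to countable structures (`CComp`).
-/

set_option autoImplicit false

namespace Pool.Agent.Helper364_SQ.CompC

open FirstOrder FirstOrder.Language
open Pool.Agent.TH672 (Fm Str upd Pv LogK)
open Pool.Agent.TH636.BC (Fml inst robinson Arith)
open Pool.Agent.TH838.J1549 (Q)
open Pool.Agent.Helper364_SQ

section
open Pool.Agent.TH672 Pool.Agent.TH672.Fm Pool.Agent.TH690.J100

/-- The completeness theorem, with countable models. -/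
theorem completenessC {κ : Type} [Countable κ] (T : List (Fm κ)) (φ : Fm κ)
    (hT : ∀ ψ ∈ T, ψ.Closed) (hφ : φ.Closed)
    (h : ∀ (S : Str κ) (v : ℕ → S.M), Countable S.M → (∀ ψ ∈ T, Sat S ψ v) → Sat S φ v) :
    Pv (fun ψ => ψ ∈ T) φ := by
  by_contra hn
  set N : ℕ := vbl (φ :: T) with hN
  obtain ⟨e, he⟩ := exists_surjective_nat (Fm κ)
  have hcons : ¬ Der (fun ψ => ψ ∈ T) [φ.neg] .bot := by
    intro hd
    apply hn
    exact Pv.mp (.log (.dn φ)) hd.deduct.to_pv
  have g := good_lim (N := N) e he [φ.neg] hcons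
  have hbd : ∀ ψ ∈ φ :: T, ∀ x, ψ.Bd x → x < N := by
    intro ψ hψ x hx
    exact lt_of_lt_of_le (lt_vb_of_bd hx) (le_vbl hψ)
  have hcount : Countable (tmod g).M := by
    have hs : Function.Surjective (cls g) := Quotient.exists_rep
    exact hs.countable
  have hmodel := h (tmod g) (fun _ => cls g 0) hcount (by
    intro ψ hψ
    rw [truth g ψ (hbd ψ (List.mem_cons_of_mem _ hψ)) (fun _ => 0),
      psub_of_fix (fun y hy => absurd hy (hT ψ hψ y))]
    exact g.thm ψ (.ax hψ))
  rw [truth g φ (hbd φ List.mem_cons_self) (fun _ => 0),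
    psub_of_fix (fun y hy => absurd hy (hφ y))] at hmodel
  exact g.bot (g.mp _ _ ⟨0, List.mem_cons_self⟩ hmodel)

end

theorem cComp : CComp := fun T φ hT hφ h => completenessC T φ hT hφ h

end Pool.Agent.Helper364_SQ.CompC
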