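import Pool.Agent.Helper364_SQ.Stmts

set_option autoImplicit false

namespace Pool.Agent.Helper364_SQ.Comps

open FirstOrder FirstOrder.Language
open Pool.Agent.TH672 (Fm Str upd Pv LogK)
open Pool.Agent.TH636.BC (Fml inst robinson Arith)
open Pool.Agent.TH838.J1549 (Q)
open Pool.Agent.Helper364_SQ

/-- translation of formulas without bound variables -/
theorem trans0 (h : TranslateG) (L' L : FirstOrder.Language.{0, 0}) (K : Interp L' L) (β : Type)
    (φ : L'.Formula β) : ∃ ψ : L.Formula (β × Fin K.dim),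
    ∀ (M : Type) [L.Structure M] (A : Type) [L'.Structure A] (f : K.Dom M → A),
      K.Realizes M A f → ∀ (y : β → K.Dom M),
      (ψ.Realize (fun p => (y p.1).1 p.2) ↔ φ.Realize (fun b => f (y b))) := by
  obtain ⟨ψ, hψ⟩ := h L' L K β 0 φ
  refine ⟨ψ.relabel (fun p : (β ⊕ Fin 0) × Fin K.dim => (Sum.elim id Fin.elim0 p.1, p.2)), ?_⟩
  intro M _ A _ f hf y
  rw [Formula.realize_relabel]
  have := hψ M A f hf y (fun i => i.elim0)
  have e1 : (fun p : (β ⊕ Fin 0) × Fin K.dim => (Sum.elim y (fun i => i.elim0) p.1).1 p.2) =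
      (fun p : β × Fin K.dim => (y p.1).1 p.2) ∘
        (fun p : (β ⊕ Fin 0) × Fin K.dim => (Sum.elim id Fin.elim0 p.1, p.2)) := by
    funext p
    obtain ⟨p1, p2⟩ := p
    rcases p1 with b | i
    · rfl
    · exact i.elim0
  rw [e1] at this
  rw [this]
  unfold Formula.Realize
  have e2 : (fun i : Fin 0 => f (i.elim0 : K.Dom M)) = default := Subsingleton.elim _ _
  rw [e2]

section

variable {L L' L'' : FirstOrder.Language.{0, 0}} (K : Interp L'' L') (N : Interp L' L)

/-- the pairing of indices -/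
def e : Fin K.dim × Fin N.dim ≃ Fin (K.dim * N.dim) := finProdFinEquiv

/-- the translation of a formula with variables in `β × Fin K.dim` -/
theorem trans1 (h : TranslateG) (β : Type) (φ : L'.Formula (β × Fin K.dim)) :
    ∃ ψ : L.Formula (β × Fin (K.dim * N.dim)),
    ∀ (M : Type) [L.Structure M] (A : Type) [L'.Structure A] (f : N.Dom M → A),
      N.Realizes M A f → ∀ (z : β → Fin (K.dim * N.dim) → M)
        (y : β → Fin K.dim → N.Dom M), (∀ b i j, (y b i).1 j = z b (e K N (i, j))) →
      (ψ.Realize (fun p => z p.1 p.2) ↔ φ.Realize (fun b => f (y b.1 b.2))) := by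
  obtain ⟨ψ, hψ⟩ := trans0 h L' L N (β × Fin K.dim) φ
  refine ⟨ψ.relabel (fun p : (β × Fin K.dim) × Fin N.dim => (p.1.1, e K N (p.1.2, p.2))), ?_⟩
  intro M _ A _ f hf z y hy
  rw [Formula.realize_relabel, ← hψ M A f hf (fun b => y b.1 b.2)]
  have : (fun p : β × Fin (K.dim * N.dim) => z p.1 p.2) ∘
      (fun p : (β × Fin K.dim) × Fin N.dim => (p.1.1, e K N (p.1.2, p.2))) =
      (fun p => (y p.1.1 p.1.2).1 p.2) := by
    funext p
    simp only [Function.comp]
    rw [hy]
  rw [this]

/-- the domain formula -/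
theorem transD (h : TranslateG) :
    ∃ ψ : L.Formula (Fin (K.dim * N.dim)),
    ∀ (M : Type) [L.Structure M] (A : Type) [L'.Structure A] (f : N.Dom M → A),
      N.Realizes M A f → ∀ (z : Fin (K.dim * N.dim) → M),
      (ψ.Realize z ↔ ∃ y : Fin K.dim → N.Dom M, (∀ i j, (y i).1 j = z (e K N (i, j))) ∧
        K.dom.Realize (fun i => f (y i))) := by
  obtain ⟨ψ, hψ⟩ := trans0 h L' L N (Fin K.dim) K.dom
  refine ⟨(BoundedFormula.iInf fun i : Fin K.dim => N.dom.relabel (fun j => e K N (i, j))) ⊓
    ψ.relabel (fun p : Fin K.dim × Fin N.dim => e K N p), ?_⟩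
  intro M _ A _ f hf z
  unfold Formula.Realize
  rw [BoundedFormula.realize_inf, BoundedFormula.realize_iInf]
  have key : ∀ y : Fin K.dim → N.Dom M, (∀ i j, (y i).1 j = z (e K N (i, j))) →
      (Formula.Realize (ψ.relabel (fun p : Fin K.dim × Fin N.dim => e K N p)) z ↔
        K.dom.Realize (fun i => f (y i))) := by
    intro y hy
    rw [Formula.realize_relabel, ← hψ M A f hf y]
    have : z ∘ (fun p : Fin K.dim × Fin N.dim => e K N p) = (fun p => (y p.1).1 p.2) := by
      funext p
      simp only [Function.comp]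
      rw [hy]
    rw [this]
  constructor
  · rintro ⟨h1, h2⟩
    have h1' : ∀ i, N.dom.Realize (fun j => z (e K N (i, j))) := by
      intro i
      have := h1 i
      rw [← Formula.Realize, Formula.realize_relabel] at this
      exact this
    refine ⟨fun i => ⟨fun j => z (e K N (i, j)), h1' i⟩, fun i j => rfl, ?_⟩
    exact (key _ (fun i j => rfl)).1 h2
  · rintro ⟨y, hy, h3⟩
    refine ⟨?_, (key y hy).2 h3⟩
    intro i
    rw [← Formula.Realize, Formula.realize_relabel]
    have : z ∘ (fun j => e K N (i, j)) = (y i).1 := by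
      funext j
      exact (hy i j).symm
    rw [this]
    exact (y i).2

end

theorem compS (h : TranslateG) : CompS := by
  intro L L' L'' K N
  obtain ⟨D, hD⟩ := transD K N h
  obtain ⟨E, hE⟩ := trans1 K N h (Fin 2) K.eqv
  have hF := fun (n : ℕ) (F : L''.Functions n) => trans1 K N h (Fin (n + 1)) (K.func F)
  choose Fu hFu using hF
  have hR := fun (n : ℕ) (R : L''.Relations n) => trans1 K N h (Fin n) (K.rel R)
  choose Re hRe using hR
  refine ⟨⟨K.dim * N.dim, D, E, fun {n} F => Fu n F, fun {n} R => Re n R⟩, ?_⟩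
  intro M _ A _ B _ f g hf hg
  have hD' := fun x : {x : Fin (K.dim * N.dim) → M // D.Realize x} => (hD M A f hf x.1).1 x.2
  choose y hy hyK using hD'
  refine ⟨fun x => g ⟨fun i => f (y x i), hyK x⟩, ?_⟩
  constructor
  · intro b
    obtain ⟨⟨a, ha⟩, rfl⟩ := hg.surj b
    choose w hw using fun i => hf.surj (a i)
    have hx : D.Realize (fun k : Fin (K.dim * N.dim) =>
        (w ((e K N).symm k).1).1 ((e K N).symm k).2) := by
      rw [hD M A f hf]
      refine ⟨w, fun i j => by simp, ?_⟩
      have : (fun i => f (w i)) = a := funext hw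
      rw [this]
      exact ha
    refine ⟨⟨_, hx⟩, ?_⟩
    refine congrArg g (Subtype.ext ?_)
    funext i
    show f (y ⟨_, hx⟩ i) = a i
    rw [← hw i]
    refine congrArg f (Subtype.ext ?_)
    funext j
    rw [hy]
    simp
  · intro x
    have := hE M A f hf (fun i => (x i).1) (fun i => y (x i)) (fun b i j => hy (x b) i j)
    rw [this]
    exact hg.eqv (fun i => ⟨fun j => f (y (x i) j), hyK (x i)⟩)
  · intro n F x
    have := hFu n F M A f hf (fun i => (x i).1) (fun i => y (x i)) (fun b i j => hy (x b) i j)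
    rw [this]
    exact hg.func F (fun i => ⟨fun j => f (y (x i) j), hyK (x i)⟩)
  · intro n R x
    have := hRe n R M A f hf (fun i => (x i).1) (fun i => y (x i)) (fun b i j => hy (x b) i j)
    rw [this]
    exact hg.rel R (fun i => ⟨fun j => f (y (x i) j), hyK (x i)⟩)

end Pool.Agent.Helper364_SQ.Comps
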