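import Pool.Agent.Helper364_SQ.Stmts

/-!
# Covering tuples and involutions
-/

set_option autoImplicit false

namespace Pool.Agent.Helper364_SQ.GameC

open FirstOrder FirstOrder.Language
open Pool.Agent.TH672 (Fm Str upd Pv LogK)
open Pool.Agent.TH636.BC (Fml inst robinson Arith)
open Pool.Agent.TH838.J1549 (Q)
open Pool.Agent.Helper364_SQ

/-- Enlarging the conditions of a matching. -/
theorem enlarge {P : Fml} {S : Str ℕ} (ax : AxSem P S) {C C' : S.M → Prop}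
    (hlow : LowAgr S C C') {k p p' q q' f : S.M} (hp : Agr S p C) (hp' : Agr S p' C')
    (hf : S.op 14 k p p' f) (hq : Agr S q C) (hq' : Agr S q' C')
    (h1 : ∀ r, S.op 11 p r r r → S.op 11 q r r r)
    (h2 : ∀ r, S.op 11 p' r r r → S.op 11 q' r r r)
    (h3 : ∀ r, S.op 11 q r r r ↔ S.op 11 q' r r r) : S.op 14 k q q' f := by
  apply ax.mt1 k p p' f q q' hf
  · intro r hr
    exact ⟨h1 r hr, by rw [hp r hr, hq r (h1 r hr)]⟩
  · intro r hr
    exact ⟨h2 r hr, by rw [hp' r hr, hq' r (h2 r hr)]⟩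
  · exact h3
  · intro r hr hl
    rw [hq r hr, hq' r ((h3 r).1 hr)]
    exact hlow r hl

theorem covS (h : LowS) : CovS := by
  intro P S q n C C' ax hn hC hC' hlow k l
  have hL := h P S q n ax hn
  induction l generalizing k with
  | zero =>
    intro hkl
    have key : ∃ f, Fk S (q.nm k) C C' f := by
      obtain ⟨p0⟩ := S.ne
      obtain ⟨p, hp1, hp2⟩ := hC p0
      obtain ⟨p', hp1', hp2'⟩ := hC' p0
      have hdom : ∀ r, S.op 11 p r r r ↔ S.op 11 p' r r r := fun r =>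
        (hp1 r).symm.trans (hp1' r)
      obtain ⟨f, hf⟩ := ax.mt2 (q.nm k) p p' ((hL k).2 (by omega)) hdom (by
        intro r hr hl
        rw [hp2 r hr, hp2' r ((hdom r).1 hr)]
        exact hlow r hl)
      exact ⟨f, p, p', hp2, hp2', hf⟩
    obtain ⟨f, hf⟩ := key
    exact ⟨fun w => ⟨f, hf, w, fun i => i.elim0⟩, fun w => ⟨f, hf, w, fun i => i.elim0⟩⟩
  | succ l ih =>
    intro hkl
    obtain ⟨ih1, ih2⟩ := ih (k + 1) (by omega)
    have hsucc : S.succ (q.nm k) (q.nm (k + 1)) := (q.succ_iff _ _).2 rfl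
    have hlow' : S.op 16 (q.nm (k + 1)) (q.nm (k + 1)) (q.nm (k + 1)) (q.nm (k + 1)) :=
      (hL (k + 1)).2 (by omega)
    have enl : ∀ f a, Fk S (q.nm (k + 1)) C C' f → ∃ p p', Agr S p C ∧ Agr S p' C' ∧
        S.op 14 (q.nm (k + 1)) p p' f ∧ S.op 19 p a a a ∧ S.op 19 p' a a a := by
      rintro f a ⟨p, p', hp, hp', hf⟩
      obtain ⟨p0, h1, h2, h3⟩ := ax.dm1 p p' a
      obtain ⟨r, hr1, hr2⟩ := hC p0
      obtain ⟨r', hr1', hr2'⟩ := hC' p0
      refine ⟨r, r', hr2, hr2', ?_, ?_, ?_⟩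
      · exact enlarge ax hlow hp hp' hf hr2 hr2' (fun x hx => (hr1 x).1 (h1 x hx))
          (fun x hx => (hr1' x).1 (h2 x hx)) (fun x => (hr1 x).symm.trans (hr1' x))
      · exact ax.cov1 p0 r a h3 (fun x hx => (hr1 x).1 hx)
      · exact ax.cov1 p0 r' a h3 (fun x hx => (hr1' x).1 hx)
    constructor
    · intro w
      obtain ⟨f, hf, w', hw'⟩ := ih1 (fun i => w i.castSucc)
      obtain ⟨p, p', hp, hp', hff, hc, -⟩ := enl f (w (Fin.last l)) hf
      obtain ⟨f', y, hsub, hf', hy⟩ := ax.ef1 _ _ p p' f (w (Fin.last l)) hsucc hlow' hff hc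
      refine ⟨f', ⟨p, p', hp, hp', hf'⟩, Fin.snoc (α := fun _ => S.M) w' y, ?_⟩
      intro i
      refine Fin.lastCases ?_ (fun j => ?_) i
      · rw [Fin.snoc_last]
        exact hy
      · rw [Fin.snoc_castSucc]
        exact hsub _ _ (hw' j)
    · intro w'
      obtain ⟨f, hf, w, hw⟩ := ih2 (fun i => w' i.castSucc)
      obtain ⟨p, p', hp, hp', hff, -, hc⟩ := enl f (w' (Fin.last l)) hf
      obtain ⟨f', x, hsub, hf', hx⟩ := ax.ef2 _ _ p p' f (w' (Fin.last l)) hsucc hlow' hff hc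
      refine ⟨f', ⟨p, p', hp, hp', hf'⟩, Fin.snoc (α := fun _ => S.M) w x, ?_⟩
      intro i
      refine Fin.lastCases ?_ (fun j => ?_) i
      · rw [Fin.snoc_last]
        exact hx
      · rw [Fin.snoc_castSucc]
        exact hsub _ _ (hw j)

theorem symS (h : LowS) : SymS := by
  rintro P S q n C C' ax hn hC hC' hlow k hk f g ⟨p1, p1', hp1, hp1', hf⟩ ⟨p2, p2', hp2, hp2', hg⟩
  have hL := h P S q n ax hn
  have hsucc : S.succ (q.nm k) (q.nm (k + 1)) := (q.succ_iff _ _).2 rfl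
  have hlow' : S.op 16 (q.nm (k + 1)) (q.nm (k + 1)) (q.nm (k + 1)) (q.nm (k + 1)) :=
    (hL (k + 1)).2 hk
  obtain ⟨q1, a1, a2, -⟩ := ax.dm1 p1 p1' p1
  obtain ⟨q2, b1, b2, -⟩ := ax.dm1 p2 p2' p1
  obtain ⟨q0, c1, c2, -⟩ := ax.dm1 q1 q2 p1
  obtain ⟨r, hr1, hr2⟩ := hC q0
  obtain ⟨r', hr1', hr2'⟩ := hC' q0
  have hdom : ∀ x, S.op 11 r x x x ↔ S.op 11 r' x x x := fun x => (hr1 x).symm.trans (hr1' x)
  have hf' : S.op 14 (q.nm k) r r' f :=
    enlarge ax hlow hp1 hp1' hf hr2 hr2' (fun x hx => (hr1 x).1 (c1 x (a1 x hx)))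
      (fun x hx => (hr1' x).1 (c1 x (a2 x hx))) hdom
  have hg' : S.op 14 (q.nm k) r r' g :=
    enlarge ax hlow hp2 hp2' hg hr2 hr2' (fun x hx => (hr1 x).1 (c2 x (b1 x hx)))
      (fun x hx => (hr1' x).1 (c2 x (b2 x hx))) hdom
  obtain ⟨e, e', he, he', hee⟩ := ax.sym _ _ r r' f g hsucc hlow' hf' hg'
  exact ⟨e, e', ⟨r', r', hr2', hr2', he⟩, ⟨r', r', hr2', hr2', he'⟩, hee⟩

theorem ctApx : CtApx := fun _ _ ax p => ax.dm2 p

theorem exRank : ExRank := by
  intro N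
  refine ⟨qr N.dom + qr N.eqv + (qr (N.func (n := 0) BAFun.zero) + qr (N.func (n := 1) BAFun.succ) +
    qr (N.func (n := 1) BAFun.half) + qr (N.func (n := 1) BAFun.len) +
    qr (N.func (n := 2) BAFun.add) + qr (N.func (n := 2) BAFun.mul) +
    qr (N.func (n := 2) BAFun.smash)) + qr (N.rel (n := 2) BARel.le), ?_, ?_, ?_, ?_⟩
  · omega
  · omega
  · intro n F
    cases F <;> omega
  · intro n R
    cases R
    omega

end Pool.Agent.Helper364_SQ.GameC
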