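import Pool.Agent.Helper364_SQ.Stmts

/-!
# The structure given by the external colouring is a model of the theory
-/

set_option autoImplicit false

namespace Pool.Agent.Helper364_SQ.MUMod

open FirstOrder FirstOrder.Language
open Pool.Agent.TH672 (Fm Str upd Pv LogK)
open Pool.Agent.TH636.BC (Fml inst robinson Arith)
open Pool.Agent.TH838.J1549 (Q)
open Pool.Agent.Helper364_SQ

variable {S : Str ℕ} {C : S.M → Prop}

/-- the arithmetical part is a model of Robinson arithmetic -/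
def qMU (q : Q S) (C : S.M → Prop) : Q (arS (MU S C)) where
  o := q.o
  s := q.s
  a := q.a
  m := q.m
  zero_iff := q.zero_iff
  succ_iff := q.succ_iff
  add_iff := q.add_iff
  mul_iff := q.mul_iff
  s_ne := q.s_ne
  s_inj := q.s_inj
  cases := q.cases
  a_o := q.a_o
  a_s := q.a_s
  m_o := q.m_o
  m_s := q.m_s

theorem nm_qMU (q : Q S) : ∀ i : ℕ, (qMU q C).nm i = q.nm i
  | 0 => rfl
  | i + 1 => congrArg q.s (nm_qMU q i)

/-- Robinson arithmetic holds -/
theorem sat_robinson {R : Str ℕ} (q : Q R) : ∀ ψ ∈ robinson, ∀ v : ℕ → R.M, Fm.Sat R ψ v := by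
  intro ψ hψ v
  simp only [TH636.BC.robinson, List.mem_cons, List.not_mem_nil, or_false] at hψ
  rcases hψ with rfl | rfl | rfl | rfl | rfl | rfl | rfl | rfl | rfl | rfl | rfl | rfl | rfl |
    rfl | rfl
  all_goals
    simp only [Fm.sat_all, Fm.sat_ex, Fm.sat_imp, Fm.sat_zero, Fm.sat_succ, Fm.sat_add,
      Fm.sat_mul, Fm.sat_eq, Fm.sat_neg, Fm.sat_or, q.zero_iff, q.succ_iff, q.add_iff, q.mul_iff]
    simp [upd]
  · intro x
    exact q.s_ne x
  · intro x y h
    exact q.s_inj _ _ h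
  · intro x
    exact q.cases x
  · intro x
    exact (q.a_o x).symm
  · rintro x y _ _ _ rfl rfl rfl
    exact (q.a_s x y).symm
  · intro x
    exact (q.m_o x).symm
  · rintro x y _ _ _ rfl rfl rfl
    exact (q.m_s x y).symm

/-- arithmetical formulas -/
theorem sat_arith : ∀ {φ : Fml}, Arith φ → ∀ v : ℕ → S.M,
    (Fm.Sat (arS (MU S C)) φ v ↔ Fm.Sat S φ v)
  | .bot, _, _ => Iff.rfl
  | .eq _ _, _, _ => Iff.rfl
  | .zero _, _, _ => Iff.rfl
  | .succ _ _, _, _ => Iff.rfl
  | .add _ _ _, _, _ => Iff.rfl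
  | .mul _ _ _, _, _ => Iff.rfl
  | .op _ _ _ _ _, h, _ => absurd h id
  | .imp φ ψ, h, v => by
    have h1 := sat_arith (φ := φ) h.1 v
    have h2 := sat_arith (φ := ψ) h.2 v
    exact ⟨fun h3 h4 => h2.1 (h3 (h1.2 h4)), fun h3 h4 => h2.2 (h3 (h1.1 h4))⟩
  | .all x φ, h, v =>
    ⟨fun h1 a => (sat_arith (φ := φ) h (upd v x a)).1 (h1 a),
      fun h1 a => (sat_arith (φ := φ) h (upd v x a)).2 (h1 a)⟩

/-- the numbers -/
theorem numS_iff (q : Q S) : ∀ (i : ℕ) (x : S.M), NumS (MU S C) i x ↔ x = q.nm i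
  | 0, x => q.zero_iff x
  | i + 1, x => by
    constructor
    · rintro ⟨z, h1, h2⟩
      have h3 : x = q.s z := (q.succ_iff z x).1 h1
      have h4 : z = q.nm i := (numS_iff q i z).1 h2
      rw [h3, h4]
      rfl
    · intro h
      exact ⟨q.nm i, (q.succ_iff _ _).2 h, (numS_iff q i _).2 rfl⟩

/-- the types -/
theorem tyS_iff {P : Fml} (q : Q S) (A : AxSem P S) : ∀ (k : ℕ) (v r : S.M),
    S.op 9 v r r r → S.op 10 v (q.nm k) (q.nm k) (q.nm k) →
    (TyS (MU S C) k v ↔ ((C r ∧ S.op 8 v v v v) ∨ (¬ C r ∧ S.op 7 v v v v)))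
  | 0, v, r, h9, h10 => by
    constructor
    · rintro ⟨r', k, h1, h2, h3, h4⟩
      have hr : r' = r := A.ro1 v r' r h1 h9
      rw [hr] at h4
      exact h4
    · intro h
      exact ⟨r, q.nm 0, h9, h10, (q.zero_iff _).2 rfl, h⟩
  | k + 1, v, r, h9, h10 => by
    have key : ∀ z, S.op 2 v z z z → (TyS (MU S C) k z ↔
        ((C r ∧ S.op 8 z z z z) ∨ (¬ C r ∧ S.op 7 z z z z))) := by
      intro z hz
      obtain ⟨h1, k', h2, h3⟩ := A.ch1 v r _ z h9 h10 hz
      have h4 : q.s (q.nm k) = q.s k' := (q.succ_iff _ _).1 h2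
      have h5 : q.nm k = k' := q.s_inj _ _ h4
      rw [← h5] at h3
      exact tyS_iff q A k z r h1 h3
    have h2 := A.ch2 v r (q.nm k) (q.nm (k + 1)) h9 h10 ((q.succ_iff _ _).2 rfl)
    have h3 : TyS (MU S C) (k + 1) v ↔ ∃ z, S.op 2 v z z z ∧ ¬ TyS (MU S C) k z := Iff.rfl
    rw [h3, h2.1, h2.2]
    by_cases hC : C r
    · simp only [hC, true_and, not_true_eq_false, false_and, or_false] at key ⊢
      exact exists_congr fun z => and_congr_right fun hz => not_congr (key z hz)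
    · simp only [hC, false_and, not_false_eq_true, true_and, false_or] at key ⊢
      exact exists_congr fun z => and_congr_right fun hz => not_congr (key z hz)

/-- the types of the roots -/
theorem tyS_root {P : Fml} (q : Q S) (A : AxSem P S) (i : ℕ) (r j d : S.M)
    (h : S.op 3 r (q.nm i) j d) : TyS (MU S C) i r ↔ C r := by
  obtain ⟨h1, h2, h3, h4⟩ := A.rt4 r _ j d h
  rw [tyS_iff q A i r r h1 h2]
  simp only [h3, h4, and_true, and_false, or_false]

theorem muModel (h : LowS) : MUModel := by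
  intro P S q c n C hP A h17 h18 hH E
  have hlow := h P S q n A h17
  have hf0 : ¬ P.Free 0 := fun hx => by have := hP.2.1 0 hx; omega
  have hf1 : ¬ P.Free 1 := fun hx => by have := hP.2.1 1 hx; omega
  refine ⟨A.as1, A.as2, ?_, ?_, ?_, ?_⟩
  · intro ψ hψ v
    exact sat_robinson (qMU q C) ψ hψ v
  · intro i x hx
    have hx' : x = q.nm i := (numS_iff q i x).1 hx
    subst hx'
    by_cases hi : i < n
    · obtain ⟨j, d, r, h1, h2, h3⟩ := A.cut1 (q.nm i) ((hlow i).2 hi)
      have h4 : C r := (E.low r (A.ct1 r h3)).2 h3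
      exact ⟨j, d, r, h1, h2, (tyS_root q A i r j d h2).2 h4⟩
    · obtain ⟨r, d, h1, h2⟩ := E.ex i 0 (not_lt.1 hi)
      exact ⟨q.nm 0, d, r, (q.zero_iff _).2 rfl, h1, (tyS_root q A i r _ d h1).2 h2⟩
  · intro i x hx j d r h1 h2
    have hx' : x = q.nm i := (numS_iff q i x).1 hx
    subst hx'
    have h1' : S.op 3 r (q.nm i) j d := h1
    have hC : C r := (tyS_root q A i r j d h1').1 h2
    by_cases hi : i < n
    · have h20 : S.op 20 r r r r := (A.lw r _ j d h1').2 ((hlow i).2 hi)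
      have h6 : S.op 6 r r r r := (E.low r h20).1 hC
      obtain ⟨j', d', r', h3, h4, h5⟩ := A.cut2 (q.nm i) j d r ((hlow i).2 hi) h1' h6
      have h7 : C r' := (E.low r' (A.ct1 r' h5)).2 h5
      exact ⟨j', d', r', h3, h4, (tyS_root q A i r' j' d' h4).2 h7⟩
    · obtain ⟨l, hl⟩ := E.num i j d r (not_lt.1 hi) h1' hC
      subst hl
      obtain ⟨r', d', h3, h4⟩ := E.ex i (l + 1) (not_lt.1 hi)
      exact ⟨q.nm (l + 1), d', r', (q.succ_iff _ _).2 rfl, h3, (tyS_root q A i r' _ d' h3).2 h4⟩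
  · intro i x hx j d r h1 h2
    have hx' : x = q.nm i := (numS_iff q i x).1 hx
    subst hx'
    have h1' : S.op 3 r (q.nm i) j d := h1
    have hC : C r := (tyS_root q A i r j d h1').1 h2
    have hs := TH838.J1549.sat_inst (qMU q C) (φ := P) (x := 2) le_rfl hf0 hf1 c
      (fun y => if y = 3 then j else q.nm i)
    intro hsat
    have hsat' := hs.1 hsat
    by_cases hi : i < n
    · have h20 : S.op 20 r r r r := (A.lw r _ j d h1').2 ((hlow i).2 hi)
      have h6 : S.op 6 r r r r := (E.low r h20).1 hC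
      refine A.nh (q.nm i) j d r (q.nm c) ((hlow i).2 hi) h1' h6 h18 ?_
      have h7 := (sat_arith (C := C) hP.1 _).1 hsat'
      refine (TH838.J1549.sat_cong fun y hy => ?_).1 h7
      rw [nm_qMU]
      rcases hP.2.1 y hy with rfl | rfl | rfl
      · simp [upd, as3]
      · simp [upd, as3]
        all_goals rfl
      · simp [upd, as3]
    · obtain ⟨l, hl⟩ := E.num i j d r (not_lt.1 hi) h1' hC
      subst hl
      refine hH l i ((hP.2.2 (arS (MU S C)) (qMU q C) _ c l i ?_ ?_ ?_).1 hsat')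
      · simp [upd]
      · simp only [nm_qMU]
        simp [upd]
        all_goals rfl
      · simp only [nm_qMU]
        simp [upd]
        all_goals rfl

end Pool.Agent.Helper364_SQ.MUMod
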