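import Pool.Agent.Helper364_SQ.Stmts
import Pool.Agent.TH554.J1548
import Pool.Agent.TH955.J1547

/-!
# The interpretability relation is recursively enumerable
-/

set_option autoImplicit false

namespace Pool.Agent.Helper364_SQ.RrRec

open FirstOrder FirstOrder.Language
open Pool.Agent.TH672 (Fm Str upd Pv LogK)
open Pool.Agent.TH636.BC (Fml inst robinson Arith gn blk)
open Pool.Agent.TH838.J1549 (Q)
open Pool.Agent.Helper364_SQ
open Pool.Agent.TH955.J1547

/-! ### Existential quantifiers over codes -/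

theorem re_exists {α β : Type} [Primcodable α] [Primcodable β] {T : α → β → Prop}
    (h : PrimrecPred fun x : α × β => T x.1 x.2) : REPred fun a => ∃ b, T a b := by
  classical
  have hT : Primrec₂ fun (a : α) (b : β) => decide (T a b) := by
    obtain ⟨hd, hp⟩ := h
    refine Primrec.of_eq hp ?_
    rintro ⟨a, b⟩
    simp
  have hf : Primrec₂ fun (a : α) (k : ℕ) =>
      (Encodable.decode (α := β) k).bind fun b => cond (decide (T a b)) (some ()) none := by
    refine Primrec.option_bind (f := fun x : α × ℕ => Encodable.decode (α := β) x.2)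
      (g := fun (x : α × ℕ) (b : β) => cond (decide (T x.1 b)) (some ()) none) ?_ ?_
    · exact Primrec.decode.comp Primrec.snd
    · refine Primrec.cond ?_ (Primrec.const _) (Primrec.const _)
      exact hT.comp (Primrec.fst.comp Primrec.fst) Primrec.snd
  have hp : Partrec fun a : α => Nat.rfindOpt fun k : ℕ =>
      (Encodable.decode (α := β) k).bind fun b => cond (decide (T a b)) (some ()) none :=
    Partrec.rfindOpt (Primrec₂.to_comp hf)
  refine hp.dom_re.of_eq ?_
  intro a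
  rw [Nat.rfindOpt_dom]
  constructor
  · rintro ⟨k, u, hk⟩
    simp only [Option.mem_def, Option.bind_eq_some_iff] at hk
    obtain ⟨b, -, hb⟩ := hk
    by_cases hab : T a b
    · exact ⟨b, hab⟩
    · simp [hab] at hb
  · rintro ⟨b, hb⟩
    refine ⟨Encodable.encode b, (), ?_⟩
    simp [hb]

/-! ### The symbols of a formula -/

/-- comparison with `100` -/
def l100 (i : ℕ) : Bool := decide (i < 100)

theorem p_l100 {β : Type} [Primcodable β] {f : β → ℕ} (hf : Primrec f) :
    Primrec fun x => l100 (f x) :=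
  (Primrec.nat_lt.decide).comp hf (Primrec.const 100)

/-- step for `ob` -/
def obs (_ : ℕ) (n : ℕ) (b1 b2 : Bool) : Bool :=
  cond (eb (tg n) 7) (l100 (c1 n))
    (cond (eb (tg n) 8) (b1 && b2) (cond (eb (tg n) 9) b2 true))

/-- only the symbols `op i` with `i < 100` occur -/
def ob (n : ℕ) : Bool := fold obs 0 n

theorem ob_primrec : Primrec ob := by
  have h := fold_primrec obs (by
    unfold obs
    repeat' with_reducible first
      | assumption
      | exact p_var
      | apply p_cond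
      | apply p_and
      | apply p_eb
      | apply p_l100
      | apply p_tg
      | apply p_c1
      | apply p_fst
      | apply p_snd
      | exact Primrec.const _)
  exact h.comp (Primrec.const 0) Primrec.id

theorem ob_gn : ∀ φ : Fml, ob (gn φ) = true ↔ OpB 100 φ := by
  intro φ
  induction φ with
  | bot => unfold ob gn; rw [fold]; simp [obs, eb, OpB]
  | eq x y => unfold ob gn; rw [fold]; simp [obs, eb, OpB]
  | zero x => unfold ob gn; rw [fold]; simp [obs, eb, OpB]
  | succ x y => unfold ob gn; rw [fold]; simp [obs, eb, OpB]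
  | add x y z => unfold ob gn; rw [fold]; simp [obs, eb, OpB]
  | mul x y z => unfold ob gn; rw [fold]; simp [obs, eb, OpB]
  | op i a b c d => unfold ob gn; rw [fold]; simp [obs, eb, OpB, l100]
  | imp φ ψ ih1 ih2 =>
    unfold ob at *
    rw [gn, fold_pair _ _ (by norm_num)]
    simp [obs, eb, OpB, ih1, ih2]
  | all x φ ih =>
    unfold ob at *
    rw [gn, fold_pair _ _ (by norm_num)]
    simp [obs, eb, OpB, ih]

/-- `Ok` on Gödel numbers -/
def okN (g : ℕ) : Prop :=
  isF g = true ∧ ob g = true ∧ ∀ x < g + 1, (l4 x || ! fr x g) = true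
where
  /-- comparison with `4` -/
  l4 (x : ℕ) : Bool := decide (x < 4)

theorem okN_primrec : PrimrecPred okN := by
  have h1 : PrimrecPred fun g => isF g = true := bool_pred isF_primrec
  have h2 : PrimrecPred fun g => ob g = true := bool_pred ob_primrec
  have h4 : Primrec okN.l4 := (Primrec.nat_lt.decide).comp Primrec.id (Primrec.const 4)
  have h3 : PrimrecRel fun x g : ℕ => (okN.l4 x || ! fr x g) = true := by
    refine bool_pred (β := ℕ × ℕ) (f := fun p => (okN.l4 p.1 || ! fr p.1 p.2)) ?_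
    exact p_or (h4.comp Primrec.fst) (p_not (p_fr Primrec.fst Primrec.snd))
  have h5 : PrimrecPred fun g : ℕ => ∀ x < g + 1, (okN.l4 x || ! fr x g) = true :=
    (PrimrecRel.forall_lt h3).comp Primrec.succ Primrec.id
  exact h1.and (h2.and h5)

theorem okN_gn (φ : Fml) : okN (gn φ) ↔ Ok φ := by
  unfold okN Ok
  rw [ob_gn]
  constructor
  · rintro ⟨-, h2, h3⟩
    refine ⟨fun x hx => ?_, h2⟩
    have h := h3 x (Nat.lt_succ_of_le (free_le φ x hx))
    have h' := (fr_gn x φ).2 hx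
    simpa [okN.l4, h'] using h
  · rintro ⟨h1, h2⟩
    refine ⟨isF_gn φ, h2, fun x _ => ?_⟩
    by_cases hx : x < 4
    · simp [okN.l4, hx]
    · have h' : ¬ fr x (gn φ) = true := fun h => hx (h1 x ((fr_gn x φ).1 h))
      simp [h']

theorem okN_ex {g : ℕ} (h : okN g) : ∃ φ : Fml, Ok φ ∧ gn φ = g := by
  obtain ⟨φ, rfl⟩ := (isF_iff g).1 h.1
  exact ⟨φ, (okN_gn φ).1 h, rfl⟩

/-! ### Numerals -/

/-- `blk` on Gödel numbers -/
def blkN (g : ℕ) : ℕ :=
  allN 1 (impN (gn (.succ 0 1)) (allN 0 (impN (gn (.eq 0 1)) g)))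

theorem gn_blk (ψ : Fml) : gn (blk ψ) = blkN (gn ψ) := rfl

theorem gn_iter (ψ : Fml) : ∀ n : ℕ, gn (blk^[n] ψ) = blkN^[n] (gn ψ)
  | 0 => rfl
  | n + 1 => by
    rw [Function.iterate_succ_apply', Function.iterate_succ_apply', gn_blk, gn_iter ψ n]

/-- `inst` on Gödel numbers -/
def instN (x n g : ℕ) : ℕ :=
  allN 0 (impN (gn (.zero 0)) (blkN^[n] (allN x (impN (gn (.eq x 0)) g))))

theorem gn_inst (x n : ℕ) (φ : Fml) : gn (inst x n φ) = instN x n (gn φ) := by
  unfold inst instN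
  simp only [gn, gn_iter, allN, impN]

theorem p_blkN : Primrec blkN := by
  unfold blkN
  repeat' with_reducible first | exact p_var | apply p_allN | apply p_impN | exact Primrec.const _

theorem p_instN {β : Type} [Primcodable β] (x : ℕ) {f g : β → ℕ} (hf : Primrec f)
    (hg : Primrec g) : Primrec fun y => instN x (f y) (g y) := by
  unfold instN
  refine p_allN (Primrec.const _) (p_impN (Primrec.const _) ?_)
  refine Primrec.nat_iterate (h := fun (_ : β) (g : ℕ) => blkN g) hf ?_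
    (p_blkN.comp Primrec.snd).to₂
  exact p_allN (Primrec.const _) (p_impN (Primrec.const _) hg)

/-! ### Translated numerals -/

/-- translation of `blk` -/
def blkT (g : ℕ) : ℕ :=
  allN 1 (impN (gn (.op 100 1 1 1 1)) (impN (gn (.op 103 0 1 1 1)) (allN 0
    (impN (gn (.op 100 0 0 0 0)) (impN (gn (.op 101 0 1 1 1)) g)))))

theorem gn_tr_blk (ψ : Fml) : gn (tr (blk ψ)) = blkT (gn (tr ψ)) := rfl

theorem gn_tr_iter (ψ : Fml) : ∀ n : ℕ, gn (tr (blk^[n] ψ)) = blkT^[n] (gn (tr ψ))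
  | 0 => rfl
  | n + 1 => by
    rw [Function.iterate_succ_apply', Function.iterate_succ_apply', gn_tr_blk, gn_tr_iter ψ n]

/-- translation of `inst` -/
def instT (x n g : ℕ) : ℕ :=
  allN 0 (impN (gn (.op 100 0 0 0 0)) (impN (gn (.op 102 0 0 0 0))
    (blkT^[n] (allN x (impN (gn (.op 100 x x x x)) (impN (gn (.op 101 x 0 0 0)) g))))))

theorem gn_tr_inst (x n : ℕ) (φ : Fml) : gn (tr (inst x n φ)) = instT x n (gn (tr φ)) := by
  unfold inst instT
  simp only [tr, gn, gn_tr_iter, allN, impN]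

theorem p_blkT : Primrec blkT := by
  unfold blkT
  repeat' with_reducible first | exact p_var | apply p_allN | apply p_impN | exact Primrec.const _

theorem p_instT {β : Type} [Primcodable β] (x : ℕ) {f g : β → ℕ} (hf : Primrec f)
    (hg : Primrec g) : Primrec fun y => instT x (f y) (g y) := by
  unfold instT
  refine p_allN (Primrec.const _) (p_impN (Primrec.const _) (p_impN (Primrec.const _) ?_))
  refine Primrec.nat_iterate (h := fun (_ : β) (g : ℕ) => blkT g) hf ?_
    (p_blkT.comp Primrec.snd).to₂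
  exact p_allN (Primrec.const _) (p_impN (Primrec.const _) (p_impN (Primrec.const _) hg))

/-! ### The axioms and the target -/

/-- conjunction on Gödel numbers -/
def andN (a b : ℕ) : ℕ := impN (impN a (impN b (gn .bot))) (gn .bot)

theorem gn_and (φ ψ : Fml) : gn (.and φ ψ) = andN (gn φ) (gn ψ) := rfl

theorem tr_and (φ ψ : Fml) : tr (.and φ ψ) = .and (tr φ) (tr ψ) := rfl

theorem p_andN {β : Type} [Primcodable β] {f g : β → ℕ} (hf : Primrec f) (hg : Primrec g) :
    Primrec fun x => andN (f x) (g x) :=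
  p_impN (p_impN hf (p_impN hg (Primrec.const _))) (Primrec.const _)

/-- the definitions on Gödel numbers -/
def dFN (t g : ℕ) : ℕ :=
  allN 0 (allN 1 (allN 2 (allN 3 (andN (impN (gn (.op (100 + t) 0 1 2 3)) g)
    (impN g (gn (.op (100 + t) 0 1 2 3)))))))

theorem gn_dF (t : ℕ) (φ : Fml) : gn (dF t φ) = dFN t (gn φ) := rfl

theorem p_dFN {β : Type} [Primcodable β] (t : ℕ) {g : β → ℕ} (hg : Primrec g) :
    Primrec fun x => dFN t (g x) :=
  p_allN (Primrec.const _) (p_allN (Primrec.const _) (p_allN (Primrec.const _)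
    (p_allN (Primrec.const _) (p_andN (p_impN (Primrec.const _) hg)
      (p_impN hg (Primrec.const _))))))

/-- the axioms on Gödel numbers -/
def saxN (σ0 : Fml) (c n : ℕ) : List ℕ :=
  gn σ0 :: instN 2 n (gn (.op 17 2 2 2 2)) :: instN 2 c (gn (.op 18 2 2 2 2)) :: robinson.map gn

theorem sax_gn (σ0 : Fml) (c n : ℕ) : (Sax σ0 c n).map gn = saxN σ0 c n := by
  simp only [Sax, saxN, List.map_cons, gn_inst]

theorem p_saxN {β : Type} [Primcodable β] (σ0 : Fml) {f g : β → ℕ} (hf : Primrec f)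
    (hg : Primrec g) : Primrec fun x => saxN σ0 (f x) (g x) :=
  Primrec.list_cons.comp (Primrec.const _) (Primrec.list_cons.comp
    (p_instN 2 hg (Primrec.const _)) (Primrec.list_cons.comp (p_instN 2 hf (Primrec.const _))
      (Primrec.const _)))

/-- the target on Gödel numbers -/
def tgN (Γ0 P : Fml) (c n : ℕ) : ℕ :=
  andN (gn Γ0) (andN (gn (tr (conjL robinson))) (andN (gn (tr cutF))
    (instT 2 c (instT 4 n (gn (tr (.all 3 (.imp (.op 0 3 3 3 3) (.neg P)))))))))

theorem gn_target (Γ0 P : Fml) (c n : ℕ) : gn (target Γ0 P c n) = tgN Γ0 P c n := by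
  unfold target theta tgN
  rw [gn_and, tr_and, gn_and, tr_and, gn_and, gn_tr_inst, gn_tr_inst]

theorem p_tgN {β : Type} [Primcodable β] (Γ0 P : Fml) {f g : β → ℕ} (hf : Primrec f)
    (hg : Primrec g) : Primrec fun x => tgN Γ0 P (f x) (g x) :=
  p_andN (Primrec.const _) (p_andN (Primrec.const _) (p_andN (Primrec.const _)
    (p_instT 2 hf (p_instT 4 hg (Primrec.const _)))))

/-! ### The relation -/

/-- the primitive recursive test -/
def Tst (L : ℕ → Bool) (σ0 Γ0 P : Fml) (p : ℕ × ℕ) (w : (Fin 7 → ℕ) × List ℕ) : Prop :=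
  (∀ g ∈ List.ofFn fun t : Fin 7 => w.1 t, okN g) ∧ (∀ a ∈ w.2, isF a = true) ∧
    TH554.J1548.isPf L (saxN σ0 p.1 p.2 ++ List.ofFn fun t : Fin 7 => dFN t (w.1 t))
      (tgN Γ0 P p.1 p.2 :: w.2) = true

theorem tst_primrec {L : ℕ → Bool} (hL : Primrec L) (σ0 Γ0 P : Fml) :
    PrimrecPred fun x : (ℕ × ℕ) × ((Fin 7 → ℕ) × List ℕ) => Tst L σ0 Γ0 P x.1 x.2 := by
  have ha : ∀ t : Fin 7, Primrec fun x : (ℕ × ℕ) × ((Fin 7 → ℕ) × List ℕ) => x.2.1 t :=
    fun t => Primrec.fin_app.comp (Primrec.fst.comp Primrec.snd) (Primrec.const t)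
  have h1 : PrimrecPred fun x : (ℕ × ℕ) × ((Fin 7 → ℕ) × List ℕ) =>
      ∀ g ∈ List.ofFn fun t : Fin 7 => x.2.1 t, okN g :=
    (PrimrecPred.forall_mem_list okN_primrec).comp (Primrec.list_ofFn ha)
  have h2 : PrimrecPred fun x : (ℕ × ℕ) × ((Fin 7 → ℕ) × List ℕ) => ∀ a ∈ x.2.2, isF a = true :=
    (PrimrecPred.forall_mem_list (p := fun a => isF a = true) (bool_pred isF_primrec)).comp
      (Primrec.snd.comp Primrec.snd)
  have h3 : Primrec fun x : (ℕ × ℕ) × ((Fin 7 → ℕ) × List ℕ) =>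
      saxN σ0 x.1.1 x.1.2 ++ List.ofFn fun t : Fin 7 => dFN t (x.2.1 t) := by
    refine Primrec.list_append.comp ?_ (Primrec.list_ofFn fun t => p_dFN t (ha t))
    exact p_saxN σ0 (Primrec.fst.comp Primrec.fst) (Primrec.snd.comp Primrec.fst)
  have h4 : Primrec fun x : (ℕ × ℕ) × ((Fin 7 → ℕ) × List ℕ) =>
      tgN Γ0 P x.1.1 x.1.2 :: x.2.2 :=
    Primrec.list_cons.comp (p_tgN Γ0 P (Primrec.fst.comp Primrec.fst)
      (Primrec.snd.comp Primrec.fst)) (Primrec.snd.comp Primrec.snd)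
  have h5 : PrimrecPred fun x : (ℕ × ℕ) × ((Fin 7 → ℕ) × List ℕ) =>
      TH554.J1548.isPf L (saxN σ0 x.1.1 x.1.2 ++ List.ofFn fun t : Fin 7 => dFN t (x.2.1 t))
        (tgN Γ0 P x.1.1 x.1.2 :: x.2.2) = true :=
    bool_pred ((TH554.J1548.isPf_primrec hL).comp h3 h4)
  exact h1.and (h2.and h5)

theorem pv_iff (Γ : List Fml) (φ : Fml) :
    Pv (fun ψ => ψ ∈ Γ) φ ↔ ∃ π, TH636.BC.IsProof Γ (φ :: π) := by
  constructor
  · exact TH838.J1549.pv_proof
  · rintro ⟨π, h⟩
    have key : ∀ π : List Fml, TH636.BC.IsProof Γ π → ∀ ψ ∈ π, Pv (fun ψ => ψ ∈ Γ) ψ := by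
      intro π
      induction π with
      | nil => simp
      | cons χ π ih =>
        rintro ⟨h1, h2⟩ ψ hψ
        rcases List.mem_cons.1 hψ with rfl | hψ
        · rcases h2 with h2 | h2 | ⟨θ, h3, h4⟩ | ⟨θ, h3, x, rfl⟩
          · exact .ax h2
          · exact .log h2
          · exact .mp (ih h1 _ h4) (ih h1 _ h3)
          · exact .gen x (ih h1 _ h3)
        · exact ih h1 ψ hψ
    exact key _ h φ (by simp)

theorem tst_iff {L : ℕ → Bool} (hL : ∀ n, L n = true ↔ ∃ φ, n = gn φ ∧ LogK φ)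
    (σ0 Γ0 P : Fml) (p : ℕ × ℕ) :
    (∃ w, Tst L σ0 Γ0 P p w) ↔ Rr σ0 Γ0 P p.1 p.2 := by
  have hG : ∀ φ : Fin 7 → Fml,
      (Sax σ0 p.1 p.2 ++ List.ofFn (fun t : Fin 7 => dF t (φ t))).map gn =
        saxN σ0 p.1 p.2 ++ List.ofFn (fun t : Fin 7 => dFN t (gn (φ t))) := by
    intro φ
    have h : (gn ∘ fun t : Fin 7 => dF t (φ t)) = fun t : Fin 7 => dFN t (gn (φ t)) := by
      funext t
      simp only [Function.comp_apply, gn_dF]
    rw [List.map_append, sax_gn, List.map_ofFn, h]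
  constructor
  · rintro ⟨⟨g, π⟩, h1, h2, h3⟩
    simp only at h1 h2 h3
    have h4 : ∀ t : Fin 7, ∃ φ : Fml, Ok φ ∧ gn φ = g t := fun t =>
      okN_ex (h1 (g t) (List.mem_ofFn.2 ⟨t, rfl⟩))
    choose φ hφ hg using h4
    obtain ⟨Q, rfl⟩ := TH554.J1548.exists_map (F := isF) isF_iff π h2
    refine ⟨φ, hφ, (pv_iff _ _).2 ⟨Q, ?_⟩⟩
    rw [← TH554.J1548.isPf_iff hL, hG, List.map_cons, gn_target]
    simpa only [hg] using h3
  · rintro ⟨φ, hφ, h⟩
    obtain ⟨Q, hQ⟩ := (pv_iff _ _).1 h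
    rw [← TH554.J1548.isPf_iff hL, hG, List.map_cons, gn_target] at hQ
    refine ⟨(fun t => gn (φ t), Q.map gn), ?_, ?_, hQ⟩
    · intro g hg
      obtain ⟨t, rfl⟩ := List.mem_ofFn.1 hg
      exact (okN_gn _).2 (hφ t)
    · intro a ha
      obtain ⟨ψ, -, rfl⟩ := List.mem_map.1 ha
      exact isF_gn ψ

theorem rrRE : RrRE := by
  intro σ0 Γ0 P
  obtain ⟨L, hL, hL'⟩ := Pool.Agent.TH955.J1547.gnLog
  exact (re_exists (tst_primrec hL σ0 Γ0 P)).of_eq (tst_iff hL' σ0 Γ0 P)

end Pool.Agent.Helper364_SQ.RrRec
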