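import Pool.Agent.Helper364_SQ.Stmts

/-!
# Matchings of trees: extension, inverse, connection by two involutions
-/

set_option autoImplicit false

namespace Pool.Agent.Helper364_SQ.StdMat

open FirstOrder FirstOrder.Language
open Pool.Agent.TH672 (Fm Str upd Pv LogK)
open Pool.Agent.TH636.BC (Fml inst robinson Arith)
open Pool.Agent.TH838.J1549 (Q)
open Pool.Agent.Helper364_SQ
open scoped Classical

/-- nodes with the same height and the same root -/
theorem same {x y : Nd} (h : rtc x = rtc y) (h' : x.1 = y.1) :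
    x.2.1 = y.2.1 ∧ x.2.2.1 = y.2.2.1 ∧ x.2.2.2.length = y.2.2.2.length := by
  unfold rtc at h
  simp only [Prod.mk.injEq] at h
  refine ⟨h.2.1, h.2.2, ?_⟩
  omega

/-- roots and nodes of low level are fixed -/
theorem fixd {n m : ℕ} {X X' : Finset Rc} {V V' : Set Rc} {s : Finset (Nd × Nd)}
    (h : Mat n m X X' V V' s) {x y : Nd} (hx : (x, y) ∈ s)
    (hc : x.2.2.2 = [] ∨ (rtc x).1 < n) : x = y := by
  rcases hc with hc | hc
  · obtain ⟨h1, -, h2⟩ := h.root _ hx
    obtain ⟨h3, h4, h5⟩ := same h1 h2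
    simp only at h1 h2 h3 h4 h5
    rw [hc, List.length_nil] at h5
    have h6 : y.2.2.2 = [] := List.length_eq_zero_iff.1 h5.symm
    apply Prod.ext h2
    apply Prod.ext h3
    apply Prod.ext h4
    rw [hc, h6]
  · exact h.fix _ hx hc

theorem fixd' {n m : ℕ} {X X' : Finset Rc} {V V' : Set Rc} {s : Finset (Nd × Nd)}
    (h : Mat n m X X' V V' s) {x y : Nd} (hx : (x, y) ∈ s)
    (hc : y.2.2.2 = [] ∨ (rtc y).1 < n) : x = y := by
  apply fixd h hx
  obtain ⟨h1, -, h2⟩ := h.root _ hx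
  obtain ⟨h3, h4, h5⟩ := same h1 h2
  simp only at h1 h2 h3 h4 h5
  rcases hc with hc | hc
  · left
    rw [hc, List.length_nil] at h5
    exact List.length_eq_zero_iff.1 h5
  · right
    rw [h1]; exact hc

/-- the invariant of the construction -/
structure Inv (n m : ℕ) (X : Finset Rc) (V V' : Set Rc) (s : Finset (Nd × Nd)) : Prop where
  mat : Mat n m X X V V' s
  ex : ∀ x ∈ s, x.1.1 = m + 1 → n ≤ (rtc x.1).1 →
    (ty (rtc x.1 ∈ V) x.1.2.2.2 ↔ ty (rtc x.2 ∈ V') x.2.2.2.2) ∨ ty (rtc x.2 ∈ V') x.2.2.2.2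

/-- the first label of the path -/
def hd (y : Nd) : ℕ :=
  match y.2.2.2 with
  | [] => 0
  | a :: _ => a.1

theorem exists_fresh (G : Finset Nd) : ∃ N : ℕ, ∀ y ∈ G, hd y < N :=
  ⟨G.sup hd + 1, fun _ hy => Nat.lt_succ_of_le (Finset.le_sup hy)⟩

/-- adding one pair -/
theorem add_pair {n m : ℕ} {X : Finset Rc} {V V' : Set Rc} {s : Finset (Nd × Nd)}
    (h : Inv n m X V V' s) {z w : Nd} (hz : rtc z ∈ X) (hzs : ∀ b, (z, b) ∉ s)
    (hws : ∀ b, (b, w) ∉ s) (hroot : rtc z = rtc w) (hht : z.1 = w.1)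
    (hpar : ∀ k j d a p, z = (k, j, d, a :: p) →
      ∃ a' p', w = (k, j, d, a' :: p') ∧ ((k + 1, j, d, p), (k + 1, j, d, p')) ∈ s)
    (hfix : (rtc z).1 < n → z = w)
    (htype : z.1 ≤ m → (ty (rtc z ∈ V) z.2.2.2 ↔ ty (rtc w ∈ V') w.2.2.2))
    (hex : z.1 = m + 1 → n ≤ (rtc z).1 →
      (ty (rtc z ∈ V) z.2.2.2 ↔ ty (rtc w ∈ V') w.2.2.2) ∨ ty (rtc w ∈ V') w.2.2.2) :
    Inv n m X V V' (insert (z, w) s) := by
  refine ⟨⟨rfl, h.mat.low, ?_, ?_, ?_, ?_, ?_⟩, ?_⟩
  · intro x hx y hy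
    rw [Finset.mem_insert] at hx hy
    rcases hx with rfl | hx <;> rcases hy with rfl | hy
    · simp
    · constructor
      · intro e
        have e' : z = y.1 := e
        exact absurd (show (z, y.2) ∈ s by rw [e']; exact hy) (hzs _)
      · intro e
        have e' : w = y.2 := e
        exact absurd (show (y.1, w) ∈ s by rw [e']; exact hy) (hws _)
    · constructor
      · intro e
        have e' : x.1 = z := e
        exact absurd (show (z, x.2) ∈ s by rw [← e']; exact hx) (hzs _)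
      · intro e
        have e' : x.2 = w := e
        exact absurd (show (x.1, w) ∈ s by rw [← e']; exact hx) (hws _)
    · exact h.mat.inj x hx y hy
  · intro x hx
    rw [Finset.mem_insert] at hx
    rcases hx with rfl | hx
    · exact ⟨hroot, hz, hht⟩
    · exact h.mat.root x hx
  · intro k j d a p b hx
    rw [Finset.mem_insert] at hx
    rcases hx with hx | hx
    · have e1 : (k, j, d, a :: p) = z := congrArg Prod.fst hx
      have e2 : b = w := congrArg Prod.snd hx
      obtain ⟨a', p', h1, h2⟩ := hpar k j d a p e1.symm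
      exact ⟨a', p', e2.trans h1, Finset.mem_insert_of_mem h2⟩
    · obtain ⟨a', p', h1, h2⟩ := h.mat.par k j d a p b hx
      exact ⟨a', p', h1, Finset.mem_insert_of_mem h2⟩
  · intro x hx
    rw [Finset.mem_insert] at hx
    rcases hx with rfl | hx
    · exact hfix
    · exact h.mat.fix x hx
  · intro x hx
    rw [Finset.mem_insert] at hx
    rcases hx with rfl | hx
    · exact htype
    · exact h.mat.type x hx
  · intro x hx
    rw [Finset.mem_insert] at hx
    rcases hx with rfl | hx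
    · exact hex
    · exact h.ex x hx

/-- one node whose parent is in the domain -/
theorem one_step {n m : ℕ} {X : Finset Rc} {V V' : Set Rc} {s : Finset (Nd × Nd)}
    (hm : m + 1 < n) (h : Inv n m X V V' s) (F : Finset Nd) {k j d : ℕ} {p : List (ℕ × Bool)}
    (hz : rtc (k, j, d, p) ∈ X) (hzs : ∀ b, ((k, j, d, p), b) ∉ s)
    (hpar : ∀ a p', p = a :: p' → ∃ b, ((k + 1, j, d, p'), b) ∈ s) :
    ∃ w, Inv n m X V V' (insert ((k, j, d, p), w) s) ∧
      (p = [] ∨ (rtc (k, j, d, p)).1 < n ∨ w ∉ F) := by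
  rcases p with _ | ⟨a, p'⟩
  · -- a root
    refine ⟨(k, j, d, []), ?_, Or.inl rfl⟩
    refine add_pair h hz hzs ?_ rfl rfl ?_ (fun _ => rfl) ?_ ?_
    · intro b hb
      have := fixd' h.mat hb (Or.inl rfl)
      subst this
      exact hzs _ hb
    · intro k' j' d' a p e
      simp only [Prod.mk.injEq] at e
      exact absurd e.2.2.2 (by simp)
    · intro hk
      simp only at hk
      have hlow := h.mat.low _ hz (by simp only [rtc, List.length_nil]; omega)
      exact hlow
    · intro hk hn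
      simp only [rtc, List.length_nil] at hk hn
      omega
  · obtain ⟨b, hb⟩ := hpar a p' rfl
    obtain ⟨r1, r2, r3⟩ := h.mat.root _ hb
    obtain ⟨q1, q2, q3⟩ := same r1 r3
    obtain ⟨kb, jb, db, p''⟩ := b
    simp only at q1 q2 q3 r3
    subst q1 q2 r3
    by_cases hlev : (rtc (k, j, d, a :: p')).1 < n
    · -- low level
      have hlev' : (rtc (k + 1, j, d, p')).1 < n := by
        simp only [rtc, List.length_cons] at hlev ⊢
        omega
      have hfixb := h.mat.fix _ hb hlev'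
      simp only [Prod.mk.injEq, true_and] at hfixb
      subst hfixb
      refine ⟨(k, j, d, a :: p'), ?_, Or.inr (Or.inl hlev)⟩
      refine add_pair h hz hzs ?_ rfl rfl ?_ (fun _ => rfl) ?_ ?_
      · intro b hb'
        have := fixd' h.mat hb' (Or.inr hlev)
        subst this
        exact hzs _ hb'
      · intro k' j' d' a1 p1 e
        simp only [Prod.mk.injEq, List.cons.injEq] at e
        obtain ⟨rfl, rfl, rfl, rfl, rfl⟩ := e
        exact ⟨a, p', rfl, hb⟩
      · intro _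
        have hlow := h.mat.low _ hz hlev
        simp only
        rw [propext hlow]
      · intro _ hn
        omega
    · -- high level
      obtain ⟨N, hN⟩ := exists_fresh (s.image Prod.snd ∪ F)
      set w : Nd := (k, j, d, (N, if k ≤ m then decide (ty (rtc (k, j, d, a :: p') ∈ V) (a :: p'))
        else true) :: p'') with hw
      have hhd : hd w = N := rfl
      have hwF : w ∉ s.image Prod.snd ∪ F := by
        intro hcon
        have := hN w hcon
        rw [hhd] at this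
        exact lt_irrefl _ this
      rw [Finset.mem_union, not_or] at hwF
      have hrw : rtc (k, j, d, a :: p') = rtc w := by
        simp only [hw, rtc, List.length_cons, q3]
      refine ⟨w, ?_, Or.inr (Or.inr hwF.2)⟩
      refine add_pair h hz hzs ?_ hrw rfl ?_ (fun h' => absurd h' hlev) ?_ ?_
      · intro b hb'
        exact hwF.1 (Finset.mem_image.2 ⟨_, hb', rfl⟩)
      · intro k' j' d' a1 p1 e
        simp only [Prod.mk.injEq, List.cons.injEq] at e
        obtain ⟨rfl, rfl, rfl, rfl, rfl⟩ := e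
        exact ⟨_, p'', rfl, hb⟩
      · intro hk
        simp only at hk
        rw [← hrw]
        by_cases hty : ty (rtc (k, j, d, a :: p') ∈ V) (a :: p')
        · simp only [hty, true_iff, hw, if_pos hk]
          left
          simp
        · simp only [hty, false_iff, hw, if_pos hk]
          rintro (h1 | h1)
          · simp at h1
          · apply h1
            -- the parent has type true
            have hpt : ty (rtc (k + 1, j, d, p') ∈ V) p' := by
              have e : rtc (k + 1, j, d, p') = rtc (k, j, d, a :: p') := by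
                simp only [rtc, List.length_cons]
                rw [Prod.mk.injEq]
                exact ⟨by omega, rfl⟩
              rw [e]
              by_contra hcon
              exact hty (Or.inr hcon)
            have e2 : rtc (k, j, d, a :: p') = rtc (k + 1, j, d, p'') := by
              simp only [rtc, List.length_cons, q3]
              rw [Prod.mk.injEq]
              exact ⟨by omega, rfl⟩
            rw [e2]
            rcases Nat.lt_or_ge k m with hkm | hkm
            · exact (h.mat.type _ hb (by simp only; omega)).1 hpt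
            · have hkm' : k = m := le_antisymm hk hkm
              rcases h.ex _ hb (by simp only; omega) (by
                simp only [rtc, List.length_cons] at hlev ⊢
                omega) with h2 | h2
              · exact h2.1 hpt
              · exact h2
      · intro hk _
        right
        simp only at hk
        simp only [hw]
        left
        simp only
        rw [if_neg (by omega)]

/-- an arbitrary node -/
theorem add_node {n m : ℕ} {X : Finset Rc} {V V' : Set Rc} (hm : m + 1 < n) (F : Finset Nd)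
    (p : List (ℕ × Bool)) : ∀ (k j d : ℕ) (s : Finset (Nd × Nd)), Inv n m X V V' s →
    rtc (k, j, d, p) ∈ X → ∃ s', s ⊆ s' ∧ Inv n m X V V' s' ∧ (∃ b, ((k, j, d, p), b) ∈ s') ∧
      ∀ x ∈ s', x ∈ s ∨ x.1.2.2.2 = [] ∨ (rtc x.1).1 < n ∨ x.2 ∉ F := by
  induction p with
  | nil =>
    intro k j d s h hz
    by_cases hin : ∃ b, ((k, j, d, []), b) ∈ s
    · exact ⟨s, Finset.Subset.refl _, h, hin, fun x hx => Or.inl hx⟩
    · push Not at hin
      obtain ⟨w, h1, h2⟩ := one_step hm h F hz hin (fun a p' e => absurd e (by simp))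
      refine ⟨insert ((k, j, d, []), w) s, Finset.subset_insert _ _, h1,
        ⟨w, Finset.mem_insert_self _ _⟩, ?_⟩
      intro x hx
      rw [Finset.mem_insert] at hx
      rcases hx with rfl | hx
      · exact Or.inr h2
      · exact Or.inl hx
  | cons a p' ih =>
    intro k j d s h hz
    have e : rtc (k + 1, j, d, p') = rtc (k, j, d, a :: p') := by
      simp only [rtc, List.length_cons]
      rw [Prod.mk.injEq]
      exact ⟨by omega, rfl⟩
    obtain ⟨s1, hs1, i1, d1, f1⟩ := ih (k + 1) j d s h (by rw [e]; exact hz)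
    by_cases hin : ∃ b, ((k, j, d, a :: p'), b) ∈ s1
    · exact ⟨s1, hs1, i1, hin, f1⟩
    · push Not at hin
      obtain ⟨w, h1, h2⟩ := one_step hm i1 F hz hin (fun a1 p1 e => by
        simp only [List.cons.injEq] at e
        obtain ⟨-, rfl⟩ := e
        exact d1)
      refine ⟨insert ((k, j, d, a :: p'), w) s1, hs1.trans (Finset.subset_insert _ _), h1,
        ⟨w, Finset.mem_insert_self _ _⟩, ?_⟩
      intro x hx
      rw [Finset.mem_insert] at hx
      rcases hx with rfl | hx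
      · exact Or.inr h2
      · exact f1 x hx

/-- a list of nodes -/
theorem add_list {n m : ℕ} {X : Finset Rc} {V V' : Set Rc} (hm : m + 1 < n) (F : Finset Nd)
    (l : List Nd) : ∀ (s : Finset (Nd × Nd)), Inv n m X V V' s →
    (∀ a ∈ l, rtc a ∈ X) → ∃ s', s ⊆ s' ∧ Inv n m X V V' s' ∧ (∀ a ∈ l, ∃ b, (a, b) ∈ s') ∧
      ∀ x ∈ s', x ∈ s ∨ x.1.2.2.2 = [] ∨ (rtc x.1).1 < n ∨ x.2 ∉ F := by
  induction l with
  | nil =>
    intro s h _
    exact ⟨s, Finset.Subset.refl _, h, fun a ha => absurd ha (by simp), fun x hx => Or.inl hx⟩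
  | cons c l ih =>
    intro s h hl
    obtain ⟨s1, hs1, i1, d1, f1⟩ := ih s h (fun a ha => hl a (List.mem_cons_of_mem _ ha))
    obtain ⟨k, j, d, p⟩ := c
    obtain ⟨s2, hs2, i2, d2, f2⟩ := add_node hm F p k j d s1 i1 (hl _ List.mem_cons_self)
    refine ⟨s2, hs1.trans hs2, i2, ?_, ?_⟩
    · intro a ha
      rw [List.mem_cons] at ha
      rcases ha with rfl | ha
      · exact d2
      · obtain ⟨b, hb⟩ := d1 a ha
        exact ⟨b, hs2 hb⟩
    · intro x hx
      rcases f2 x hx with h1 | h1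
      · exact f1 x h1
      · exact Or.inr h1

theorem matExt : MatExt := by
  intro n m X V V' s l hm hs hl
  have h : Inv n m X V V' s := by
    refine ⟨⟨rfl, hs.low, hs.inj, hs.root, hs.par, hs.fix, ?_⟩, ?_⟩
    · intro x hx hk
      exact hs.type x hx (by omega)
    · intro x hx hk _
      exact Or.inl (hs.type x hx (by omega))
  obtain ⟨s', h1, h2, h3, -⟩ := add_list hm ∅ l s h hl
  exact ⟨s', h1, h2.mat, h3⟩

/-- the form of the first component if the second one is not a root -/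
theorem par' {n m : ℕ} {X X' : Finset Rc} {V V' : Set Rc} {s : Finset (Nd × Nd)}
    (h : Mat n m X X' V V' s) {k j d : ℕ} {a : ℕ × Bool} {p : List (ℕ × Bool)} {b : Nd}
    (hb : (b, (k, j, d, a :: p)) ∈ s) : ∃ a' p', b = (k, j, d, a' :: p') ∧
      ((k + 1, j, d, p'), (k + 1, j, d, p)) ∈ s := by
  obtain ⟨r1, r2, r3⟩ := h.root _ hb
  obtain ⟨q1, q2, q3⟩ := same r1 r3
  obtain ⟨kb, jb, db, p''⟩ := b
  simp only at q1 q2 q3 r3
  subst q1 q2 r3
  rcases p'' with _ | ⟨a', p'⟩
  · simp at q3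
  · obtain ⟨a1, p1, h1, h2⟩ := h.par _ _ _ _ _ _ hb
    simp only [Prod.mk.injEq, List.cons.injEq, true_and] at h1
    obtain ⟨-, rfl⟩ := h1
    exact ⟨a', p', rfl, h2⟩

theorem matInv : MatInv := by
  intro n m X X' V V' s h
  have hmem : ∀ a b, (b, a) ∈ s.image Prod.swap ↔ (a, b) ∈ s := by
    intro a b
    rw [Finset.mem_image]
    constructor
    · rintro ⟨⟨x, y⟩, hx, e⟩
      simp only [Prod.swap_prod_mk, Prod.mk.injEq] at e
      obtain ⟨rfl, rfl⟩ := e
      exact hx
    · intro hx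
      exact ⟨(a, b), hx, rfl⟩
  have hdom := h.dom
  subst hdom
  refine ⟨s.image Prod.swap, ⟨rfl, ?_, ?_, ?_, ?_, ?_, ?_⟩, hmem⟩
  · intro r hr hn
    exact (h.low r hr hn).symm
  · rintro ⟨x1, x2⟩ hx ⟨y1, y2⟩ hy
    exact (h.inj _ ((hmem _ _).1 hx) _ ((hmem _ _).1 hy)).symm
  · rintro ⟨x1, x2⟩ hx
    obtain ⟨r1, r2, r3⟩ := h.root _ ((hmem _ _).1 hx)
    exact ⟨r1.symm, r1 ▸ r2, r3.symm⟩
  · intro k j d a p b hx
    obtain ⟨a', p', h1, h2⟩ := par' h ((hmem _ _).1 hx)
    exact ⟨a', p', h1, (hmem _ _).2 h2⟩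
  · rintro ⟨x1, x2⟩ hx hn
    obtain ⟨r1, -, -⟩ := h.root _ ((hmem _ _).1 hx)
    exact (h.fix _ ((hmem _ _).1 hx) (by
      simp only at hn r1 ⊢
      rw [r1]; exact hn)).symm
  · rintro ⟨x1, x2⟩ hx hk
    obtain ⟨-, -, r3⟩ := h.root _ ((hmem _ _).1 hx)
    exact (h.type _ ((hmem _ _).1 hx) (by
      simp only at hk r3 ⊢
      rw [r3]; exact hk)).symm

/-- the involution given by two matchings -/
noncomputable def inv2 (f s : Finset (Nd × Nd)) : Finset (Nd × Nd) :=
  ((f ×ˢ s).filter fun q => q.1.1 = q.2.1).image (fun q => (q.1.2, q.2.2)) ∪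
    ((f ×ˢ s).filter fun q => q.1.1 = q.2.1).image (fun q => (q.2.2, q.1.2))

theorem mem_inv2 {f s : Finset (Nd × Nd)} {y y' : Nd} : (y, y') ∈ inv2 f s ↔
    ∃ x, ((x, y) ∈ f ∧ (x, y') ∈ s) ∨ ((x, y') ∈ f ∧ (x, y) ∈ s) := by
  unfold inv2
  rw [Finset.mem_union, Finset.mem_image, Finset.mem_image]
  constructor
  · rintro (⟨⟨⟨x1, x2⟩, ⟨y1, y2⟩⟩, hx, e⟩ | ⟨⟨⟨x1, x2⟩, ⟨y1, y2⟩⟩, hx, e⟩)
    · rw [Finset.mem_filter, Finset.mem_product] at hx
      simp only [Prod.mk.injEq] at e hx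
      obtain ⟨rfl, rfl⟩ := e
      obtain ⟨⟨h1, h2⟩, rfl⟩ := hx
      exact ⟨_, Or.inl ⟨h1, h2⟩⟩
    · rw [Finset.mem_filter, Finset.mem_product] at hx
      simp only [Prod.mk.injEq] at e hx
      obtain ⟨rfl, rfl⟩ := e
      obtain ⟨⟨h1, h2⟩, rfl⟩ := hx
      exact ⟨_, Or.inr ⟨h1, h2⟩⟩
  · rintro ⟨x, ⟨h1, h2⟩ | ⟨h1, h2⟩⟩
    · left
      exact ⟨((x, y), (x, y')), by
        rw [Finset.mem_filter, Finset.mem_product]; exact ⟨⟨h1, h2⟩, rfl⟩, rfl⟩
    · right
      exact ⟨((x, y'), (x, y)), by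
        rw [Finset.mem_filter, Finset.mem_product]; exact ⟨⟨h1, h2⟩, rfl⟩, rfl⟩

theorem mat_inv2 {n m : ℕ} {X : Finset Rc} {V V' : Set Rc} {f s : Finset (Nd × Nd)}
    (hf : Mat n m X X V V' f) (hs : Mat n m X X V V' s)
    (hF : ∀ x y, (x, y) ∈ s → x.2.2.2 = [] ∨ (rtc x).1 < n ∨ ∀ z, (z, y) ∉ f) :
    Mat n m X X V' V' (inv2 f s) := by
  have key : ∀ x y a b c : Nd, (x, a) ∈ f → (x, b) ∈ s → (y, a) ∈ s → (y, c) ∈ f → b = c := by
    intro x y a b c h1 h2 h3 h4
    have hlow : y.2.2.2 = [] ∨ (rtc y).1 < n := by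
      rcases hF y a h3 with h | h | h
      · exact Or.inl h
      · exact Or.inr h
      · exact absurd h1 (h x)
    have e1 := fixd hs h3 hlow
    subst e1
    have e2 := fixd' hf h1 hlow
    subst e2
    have e3 := fixd hs h2 hlow
    have e4 := fixd hf h4 hlow
    rw [← e3, ← e4]
  have fun1 : ∀ {u : Finset (Nd × Nd)}, Mat n m X X V V' u → ∀ x a b : Nd, (x, a) ∈ u →
      (x, b) ∈ u → a = b := fun hu x a b h1 h2 => (hu.inj _ h1 _ h2).1 rfl
  have inj1 : ∀ {u : Finset (Nd × Nd)}, Mat n m X X V V' u → ∀ x y a : Nd, (x, a) ∈ u →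
      (y, a) ∈ u → x = y := fun hu x y a h1 h2 => (hu.inj _ h1 _ h2).2 rfl
  refine ⟨rfl, fun r _ _ => Iff.rfl, ?_, ?_, ?_, ?_, ?_⟩
  · rintro ⟨x1, x2⟩ hx ⟨y1, y2⟩ hy
    rw [mem_inv2] at hx hy
    obtain ⟨x, hx⟩ := hx
    obtain ⟨y, hy⟩ := hy
    simp only
    rcases hx with ⟨hx1, hx2⟩ | ⟨hx1, hx2⟩ <;> rcases hy with ⟨hy1, hy2⟩ | ⟨hy1, hy2⟩
    · constructor
      · rintro rfl
        have := inj1 hf _ _ _ hx1 hy1
        subst this
        exact fun1 hs _ _ _ hx2 hy2
      · rintro rfl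
        have := inj1 hs _ _ _ hx2 hy2
        subst this
        exact fun1 hf _ _ _ hx1 hy1
    · constructor
      · rintro rfl
        exact key x y x1 x2 y2 hx1 hx2 hy2 hy1
      · rintro rfl
        exact (key y x x2 y1 x1 hy1 hy2 hx2 hx1).symm
    · constructor
      · rintro rfl
        exact (key y x x1 y2 x2 hy1 hy2 hx2 hx1).symm
      · rintro rfl
        exact key x y x2 x1 y1 hx1 hx2 hy2 hy1
    · constructor
      · rintro rfl
        have := inj1 hs _ _ _ hx2 hy2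
        subst this
        exact fun1 hf _ _ _ hx1 hy1
      · rintro rfl
        have := inj1 hf _ _ _ hx1 hy1
        subst this
        exact fun1 hs _ _ _ hx2 hy2
  · rintro ⟨x1, x2⟩ hx
    rw [mem_inv2] at hx
    obtain ⟨x, ⟨h1, h2⟩ | ⟨h1, h2⟩⟩ := hx
    · obtain ⟨r1, r2, r3⟩ := hf.root _ h1
      obtain ⟨t1, t2, t3⟩ := hs.root _ h2
      exact ⟨r1.symm.trans t1, r1 ▸ r2, r3.symm.trans t3⟩
    · obtain ⟨r1, r2, r3⟩ := hf.root _ h1
      obtain ⟨t1, t2, t3⟩ := hs.root _ h2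
      exact ⟨t1.symm.trans r1, t1 ▸ t2, t3.symm.trans r3⟩
  · intro k j d a p b hx
    rw [mem_inv2] at hx
    obtain ⟨x, ⟨h1, h2⟩ | ⟨h1, h2⟩⟩ := hx
    · obtain ⟨a1, p1, rfl, h3⟩ := par' hf h1
      obtain ⟨a2, p2, rfl, h4⟩ := hs.par _ _ _ _ _ _ h2
      exact ⟨a2, p2, rfl, mem_inv2.2 ⟨_, Or.inl ⟨h3, h4⟩⟩⟩
    · obtain ⟨a1, p1, rfl, h3⟩ := par' hs h2
      obtain ⟨a2, p2, rfl, h4⟩ := hf.par _ _ _ _ _ _ h1
      exact ⟨a2, p2, rfl, mem_inv2.2 ⟨_, Or.inr ⟨h4, h3⟩⟩⟩
  · rintro ⟨x1, x2⟩ hx hn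
    rw [mem_inv2] at hx
    simp only at hn ⊢
    obtain ⟨x, ⟨h1, h2⟩ | ⟨h1, h2⟩⟩ := hx
    · have e1 := fixd' hf h1 (Or.inr hn)
      subst e1
      exact fixd hs h2 (Or.inr hn)
    · have e1 := fixd' hs h2 (Or.inr hn)
      subst e1
      exact fixd hf h1 (Or.inr hn)
  · rintro ⟨x1, x2⟩ hx hk
    rw [mem_inv2] at hx
    simp only at hk ⊢
    obtain ⟨x, ⟨h1, h2⟩ | ⟨h1, h2⟩⟩ := hx
    · obtain ⟨-, -, r3⟩ := hf.root _ h1
      simp only at r3
      have t1 := hf.type _ h1 (by simp only; omega)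
      have t2 := hs.type _ h2 (by simp only; omega)
      exact t1.symm.trans t2
    · obtain ⟨-, -, r3⟩ := hs.root _ h2
      simp only at r3
      have t1 := hf.type _ h1 (by simp only; omega)
      have t2 := hs.type _ h2 (by simp only; omega)
      exact t2.symm.trans t1

theorem matSym : MatSym := by
  intro n m X V V' f g hm hf hg
  have h0 : Inv n m X V V' ∅ := by
    refine ⟨⟨rfl, hf.low, ?_, ?_, ?_, ?_, ?_⟩, ?_⟩
    · intro x hx; simp at hx
    · intro x hx; simp at hx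
    · intro k j d a p b hx; simp at hx
    · intro x hx; simp at hx
    · intro x hx; simp at hx
    · intro x hx; simp at hx
  obtain ⟨s, -, hs, hdom, hfr⟩ := add_list hm (f.image Prod.snd ∪ g.image Prod.snd)
    (f.image Prod.fst).toList ∅ h0 (by
      intro a ha
      rw [Finset.mem_toList, Finset.mem_image] at ha
      obtain ⟨x, hx, rfl⟩ := ha
      exact (hf.root x hx).2.1)
  have hFf : ∀ x y, (x, y) ∈ s → x.2.2.2 = [] ∨ (rtc x).1 < n ∨ ∀ z, (z, y) ∉ f := by
    intro x y hxy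
    rcases hfr _ hxy with h | h | h | h
    · simp at h
    · exact Or.inl h
    · exact Or.inr (Or.inl h)
    · refine Or.inr (Or.inr fun z hz => h ?_)
      exact Finset.mem_union_left _ (Finset.mem_image.2 ⟨_, hz, rfl⟩)
  have hFg : ∀ x y, (x, y) ∈ s → x.2.2.2 = [] ∨ (rtc x).1 < n ∨ ∀ z, (z, y) ∉ g := by
    intro x y hxy
    rcases hfr _ hxy with h | h | h | h
    · simp at h
    · exact Or.inl h
    · exact Or.inr (Or.inl h)
    · refine Or.inr (Or.inr fun z hz => h ?_)
      exact Finset.mem_union_right _ (Finset.mem_image.2 ⟨_, hz, rfl⟩)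
  refine ⟨inv2 f s, inv2 g s, mat_inv2 hf hs.mat hFf, mat_inv2 hg hs.mat hFg, ?_⟩
  intro x x1 x2 h1 h2
  obtain ⟨y, hy⟩ := hdom x (by
    rw [Finset.mem_toList, Finset.mem_image]
    exact ⟨_, h1, rfl⟩)
  exact ⟨y, mem_inv2.2 ⟨x, Or.inl ⟨h1, hy⟩⟩, mem_inv2.2 ⟨x, Or.inr ⟨h1, hy⟩⟩,
    mem_inv2.2 ⟨x, Or.inr ⟨h2, hy⟩⟩, mem_inv2.2 ⟨x, Or.inl ⟨h2, hy⟩⟩⟩

end Pool.Agent.Helper364_SQ.StdMat
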