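import Pool.Agent.Helper364_SQ.Stmts

/-!
Robinson arithmetic holds in the standard structure.
-/

set_option autoImplicit false

namespace Pool.Agent.Helper364_SQ.StdRob

open FirstOrder FirstOrder.Language
open Pool.Agent.TH672 (Fm Str upd Pv LogK)
open Pool.Agent.TH636.BC (Fml inst robinson Arith)
open Pool.Agent.TH838.J1549 (Q)
open Pool.Agent.Helper364_SQ

/-- the object is a number -/
def isN : Ob → Prop
  | .num _ => True
  | _ => False

theorem sc_not {x : Ob} (h : ¬ isN x) : x.sc = x := by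
  cases x <;> first | rfl | exact absurd trivial h

theorem ad_not {x y : Ob} (h : ¬ isN y) : x.ad y = y := by
  cases y <;> first | rfl | exact absurd trivial h

theorem iter_not {x : Ob} (h : ¬ isN x) (m : ℕ) : Ob.sc^[m] x = x := by
  induction m with
  | zero => rfl
  | succ m ih => rw [Function.iterate_succ_apply', ih, sc_not h]

theorem isN_iff {x : Ob} : isN x ↔ ∃ m, x = .num m := by
  cases x <;> simp [isN]

theorem ml_not_num {y : Ob} (h : ¬ isN y) (k : ℕ) : (Ob.num k).ml y = y := by
  cases y <;> first | rfl | exact absurd trivial h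

theorem ml_not {x y : Ob} (h : ¬ isN y) (hx : ¬ isN x) : x.ml y = x := by
  cases y <;> cases x <;> first | rfl | exact absurd trivial h | exact absurd trivial hx

theorem s_ne (x : Ob) : x.sc ≠ .num 0 := by
  cases x <;> simp [Ob.sc]

theorem s_inj (x y : Ob) (h : x.sc = y.sc) : x = y := by
  cases x <;> cases y <;> simp_all [Ob.sc]

theorem cases' (x : Ob) : x = .num 0 ∨ ∃ y : Ob, x = y.sc := by
  by_cases h : isN x
  · obtain ⟨m, rfl⟩ := isN_iff.mp h
    cases m with
    | zero => exact Or.inl rfl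
    | succ m => exact Or.inr ⟨.num m, rfl⟩
  · exact Or.inr ⟨x, (sc_not h).symm⟩

theorem a_s (x y : Ob) : x.ad y.sc = (x.ad y).sc := by
  by_cases h : isN y
  · obtain ⟨m, rfl⟩ := isN_iff.mp h
    show Ob.sc^[m + 1] x = (Ob.sc^[m] x).sc
    exact Function.iterate_succ_apply' _ _ _
  · rw [sc_not h, ad_not h, sc_not h]

theorem m_s (x y : Ob) : x.ml y.sc = (x.ml y).ad x := by
  by_cases h : isN y
  · obtain ⟨m, rfl⟩ := isN_iff.mp h
    rfl
  · rw [sc_not h]
    by_cases hx : isN x
    · obtain ⟨k, rfl⟩ := isN_iff.mp hx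
      rw [ml_not_num h]
      show y = Ob.sc^[k] y
      rw [iter_not h]
    · rw [ml_not h hx, ad_not hx]

theorem stdQ : StdQ := by
  intro n c X
  refine ⟨⟨Ob.num 0, Ob.sc, Ob.ad, Ob.ml, fun x => Iff.rfl, fun x y => Iff.rfl,
    fun x y z => Iff.rfl, fun x y z => Iff.rfl, s_ne, s_inj, cases', fun x => rfl, a_s,
    fun x => rfl, m_s⟩, ?_⟩
  intro m
  induction m with
  | zero => rfl
  | succ m ih =>
    show Ob.sc _ = _
    rw [ih]
    rfl

end Pool.Agent.Helper364_SQ.StdRob
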