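import Pool.Agent.Helper364_SQ.Stmts

/-!
# Transfer of the structure defined by a translation
-/

set_option autoImplicit false

namespace Pool.Agent.Helper364_SQ.Transf

open FirstOrder FirstOrder.Language
open Pool.Agent.TH672 (Fm Str upd Pv LogK)
open Pool.Agent.TH636.BC (Fml inst robinson Arith)
open Pool.Agent.TH838.J1549 (Q)
open Pool.Agent.Helper364_SQ

/-- Two tuples of the domain that are interchanged by a matching have the same image. -/
theorem swap_eq (S : Str ℕ) (C' : S.M → Prop) (N : Interp LBA LU)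
    (A : Type) [LBA.Structure A] (f : N.Dom (MU S C') → A) (hf : N.Realizes (MU S C') A f)
    (tot : ∀ x y : A, Structure.RelMap (L := LBA) BARel.le ![x, y] ∨
      Structure.RelMap (L := LBA) BARel.le ![y, x])
    (anti : ∀ x y : A, Structure.RelMap (L := LBA) BARel.le ![x, y] →
      Structure.RelMap (L := LBA) BARel.le ![y, x] → x = y)
    (e : S.M)
    (EF : ∀ v v' : Fin 2 × Fin N.dim → S.M, (∀ a, S.op 13 e (v a) (v' a) (v' a)) →
      ((N.rel (n := 2) BARel.le).Realize (M := MU S C') v ↔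
        (N.rel (n := 2) BARel.le).Realize (M := MU S C') v'))
    (a b : N.Dom (MU S C')) (h1 : ∀ i, S.op 13 e (a.1 i) (b.1 i) (b.1 i))
    (h2 : ∀ i, S.op 13 e (b.1 i) (a.1 i) (a.1 i)) : f a = f b := by
  have key : ∀ (u v : N.Dom (MU S C')), Structure.RelMap (L := LBA) BARel.le ![f u, f v] ↔
      (N.rel (n := 2) BARel.le).Realize (M := MU S C')
        (fun p => ((![u, v] : Fin 2 → N.Dom (MU S C')) p.1).1 p.2) := by
    intro u v
    rw [hf.rel (n := 2) BARel.le (![u, v])]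
    have : (fun i => f ((![u, v] : Fin 2 → N.Dom (MU S C')) i)) = ![f u, f v] := by
      funext i
      fin_cases i <;> rfl
    rw [this]
  have sw : Structure.RelMap (L := LBA) BARel.le ![f a, f b] ↔
      Structure.RelMap (L := LBA) BARel.le ![f b, f a] := by
    rw [key a b, key b a]
    refine EF _ _ ?_
    rintro ⟨i, j⟩
    fin_cases i
    · exact h1 j
    · exact h2 j
  rcases tot (f a) (f b) with h | h
  · exact anti _ _ h (sw.1 h)
  · exact anti _ _ (sw.2 h) h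

theorem arity_fun {m : ℕ} (F : LBA.Functions m) : m ≤ 2 := by
  change BAFun m at F
  cases F <;> decide

theorem arity_rel {m : ℕ} (R : LBA.Relations m) : m ≤ 2 := by
  change BARel m at R
  cases R; decide

theorem transferS (h1 : EFS) (h2 : CovS) (h3 : SymS) : TransferS := by
  classical
  intro P S q n C C' hA h17 hC hC' hlow N k hk hn A _ f hf tot anti
  have hlow' : LowAgr S C' C' := fun r _ => Iff.rfl
  have EF1 : ∀ (α : Type) (φ : LU.Formula α), qr φ ≤ k → ∀ f0, Fk S (q.nm k) C C' f0 →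
      ∀ v v' : α → S.M, (∀ a, S.op 13 f0 (v a) (v' a) (v' a)) →
      (φ.Realize (M := MU S C) v ↔ φ.Realize (M := MU S C') v') := by
    intro α φ hφ f0 hf0 v v' hv
    have := h1 P S q n C C' hA h17 hC hC' hlow α 0 φ k hφ (by omega) f0 hf0 v v'
      (default : Fin 0 → S.M) (default : Fin 0 → S.M) hv (fun i => i.elim0)
    exact this
  have EF2 : ∀ (α : Type) (φ : LU.Formula α), qr φ ≤ k → ∀ f0, Fk S (q.nm k) C' C' f0 →
      ∀ v v' : α → S.M, (∀ a, S.op 13 f0 (v a) (v' a) (v' a)) →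
      (φ.Realize (M := MU S C') v ↔ φ.Realize (M := MU S C') v') := by
    intro α φ hφ f0 hf0 v v' hv
    have := h1 P S q n C' C' hA h17 hC' hC' hlow' α 0 φ k hφ (by omega) f0 hf0 v v'
      (default : Fin 0 → S.M) (default : Fin 0 → S.M) hv (fun i => i.elim0)
    exact this
  have sw : ∀ e, Fk S (q.nm k) C' C' e → ∀ a b : N.Dom (MU S C'),
      (∀ i, S.op 13 e (a.1 i) (b.1 i) (b.1 i)) → (∀ i, S.op 13 e (b.1 i) (a.1 i) (a.1 i)) →
      f a = f b := by
    intro e he a b ha hb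
    exact swap_eq S C' N A f hf tot anti e
      (fun v v' hv => EF2 _ _ (hk.rel 2 BARel.le) e he v v' hv) a b ha hb
  -- well-definedness
  have wd : ∀ f1 f2, Fk S (q.nm k) C C' f1 → Fk S (q.nm k) C C' f2 →
      ∀ (w : N.Dom (MU S C)) (w1 w2 : N.Dom (MU S C')),
      (∀ i, S.op 13 f1 (w.1 i) (w1.1 i) (w1.1 i)) → (∀ i, S.op 13 f2 (w.1 i) (w2.1 i) (w2.1 i)) →
      f w1 = f w2 := by
    intro f1 f2 hf1 hf2 w w1 w2 hw1 hw2
    obtain ⟨e, e', he, he', hee⟩ := h3 P S q n C C' hA h17 hC hC' hlow k (by omega) f1 f2 hf1 hf2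
    choose y hy1 hy2 hy3 hy4 using fun i => hee (w.1 i) (w1.1 i) (w2.1 i) (hw1 i) (hw2 i)
    have hy : N.dom.Realize (M := MU S C') y := (EF2 _ N.dom hk.dom e he w1.1 y hy1).1 w1.2
    exact (sw e he w1 ⟨y, hy⟩ hy1 hy2).trans (sw e' he' ⟨y, hy⟩ w2 hy3 hy4)
  have tr : ∀ f0, Fk S (q.nm k) C C' f0 → ∀ w w' : Fin N.dim → S.M,
      (∀ i, S.op 13 f0 (w i) (w' i) (w' i)) →
      (N.dom.Realize (M := MU S C) w ↔ N.dom.Realize (M := MU S C') w') :=
    fun f0 hf0 w w' h => EF1 _ N.dom hk.dom f0 hf0 w w' h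
  -- covering
  have cov : ∀ m : ℕ, m ≤ 3 → ∀ x : Fin m → N.Dom (MU S C), ∃ f0, Fk S (q.nm k) C C' f0 ∧
      ∃ x' : Fin m → N.Dom (MU S C'), ∀ i j, S.op 13 f0 ((x i).1 j) ((x' i).1 j) ((x' i).1 j) := by
    intro m hm x
    have hlt : k + m * N.dim < n := by
      have : m * N.dim ≤ 3 * N.dim := Nat.mul_le_mul_right _ hm
      omega
    obtain ⟨f0, hf0, w', hw'⟩ := (h2 P S q n C C' hA h17 hC hC' hlow k (m * N.dim) hlt).1
      (fun i => (x (finProdFinEquiv.symm i).1).1 (finProdFinEquiv.symm i).2)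
    have hh : ∀ i j, S.op 13 f0 ((x i).1 j) (w' (finProdFinEquiv (i, j)))
        (w' (finProdFinEquiv (i, j))) := by
      intro i j
      have := hw' (finProdFinEquiv (i, j))
      simpa using this
    exact ⟨f0, hf0, fun i => ⟨fun j => w' (finProdFinEquiv (i, j)),
      (tr f0 hf0 _ _ (hh i)).1 (x i).2⟩, hh⟩
  have cov1 : ∀ w : N.Dom (MU S C), ∃ f0, Fk S (q.nm k) C C' f0 ∧
      ∃ w' : N.Dom (MU S C'), ∀ j, S.op 13 f0 (w.1 j) (w'.1 j) (w'.1 j) := by
    intro w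
    obtain ⟨f0, hf0, x', hx'⟩ := cov 1 (by omega) (fun _ => w)
    exact ⟨f0, hf0, x' 0, hx' 0⟩
  choose F hF G hG using cov1
  have key : ∀ f0, Fk S (q.nm k) C C' f0 → ∀ (w : N.Dom (MU S C)) (w' : N.Dom (MU S C')),
      (∀ j, S.op 13 f0 (w.1 j) (w'.1 j) (w'.1 j)) → f (G w) = f w' :=
    fun f0 hf0 w w' h => wd (F w) f0 (hF w) hf0 w (G w) w' (hG w) h
  refine ⟨fun w => f (G w), ?_, ?_, ?_, ?_⟩
  · intro a
    obtain ⟨w', rfl⟩ := hf.surj a
    have hlt : k + N.dim < n := by omega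
    obtain ⟨f0, hf0, w, hw⟩ := (h2 P S q n C C' hA h17 hC hC' hlow k N.dim hlt).2 w'.1
    exact ⟨⟨w, (tr f0 hf0 w w'.1 hw).2 w'.2⟩, key f0 hf0 ⟨w, _⟩ w' hw⟩
  · intro x
    obtain ⟨f0, hf0, x', hx'⟩ := cov 2 (by omega) x
    rw [key f0 hf0 (x 0) (x' 0) (hx' 0), key f0 hf0 (x 1) (x' 1) (hx' 1), ← hf.eqv x']
    exact EF1 _ N.eqv hk.eqv f0 hf0 _ _ (fun p => hx' p.1 p.2)
  · intro m Fs x
    have hm : m ≤ 2 := arity_fun Fs
    obtain ⟨f0, hf0, x', hx'⟩ := cov (m + 1) (by omega) x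
    have h4 : (fun i : Fin m => f (G (x i.castSucc))) = fun i : Fin m => f (x' i.castSucc) := by
      funext i
      exact key f0 hf0 _ _ (hx' _)
    rw [h4, key f0 hf0 (x (Fin.last m)) (x' (Fin.last m)) (hx' _), ← hf.func Fs x']
    exact EF1 _ (N.func Fs) (hk.func m Fs) f0 hf0 _ _ (fun p => hx' p.1 p.2)
  · intro m R x
    have hm : m ≤ 2 := arity_rel R
    obtain ⟨f0, hf0, x', hx'⟩ := cov m (by omega) x
    have h4 : (fun i : Fin m => f (G (x i))) = fun i : Fin m => f (x' i) := by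
      funext i
      exact key f0 hf0 _ _ (hx' _)
    rw [h4, ← hf.rel R x']
    exact EF1 _ (N.rel R) (hk.rel m R) f0 hf0 _ _ (fun p => hx' p.1 p.2)

end Pool.Agent.Helper364_SQ.Transf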