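import Pool.Agent.Helper364_SQ.Stmts

/-!
# Translation of formulas
-/

set_option autoImplicit false

namespace Pool.Agent.Helper364_SQ.Transl

open FirstOrder FirstOrder.Language
open Pool.Agent.TH672 (Fm Str upd Pv LogK)
open Pool.Agent.TH636.BC (Fml inst robinson Arith)
open Pool.Agent.TH838.J1549 (Q)
open Pool.Agent.Helper364_SQ

variable {L' L : FirstOrder.Language.{0, 0}}

/-- a structure `A` that is defined in `M` by the translation `K` -/
structure Cx (K : Interp L' L) where
  /-- the outer structure -/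
  M : Type
  /-- the outer structure -/
  [sM : L.Structure M]
  /-- the inner structure -/
  A : Type
  /-- the inner structure -/
  [sA : L'.Structure A]
  /-- the coordinate map -/
  f : K.Dom M → A
  /-- the definition -/
  hf : K.Realizes M A f

attribute [instance] Cx.sM Cx.sA

/-- The relation between tuples of the domain is definable. -/
def Df (K : Interp L' L) (γ : Type) (R : ∀ c : Cx K, (γ → K.Dom c.M) → Prop) : Prop :=
  ∃ ψ : L.Formula (γ × Fin K.dim), ∀ (c : Cx K) (x : γ → K.Dom c.M),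
    ψ.Realize (fun p => (x p.1).1 p.2) ↔ R c x

variable {K : Interp L' L} {γ δ ι : Type}

lemma Df.congr {R R' : ∀ c : Cx K, (γ → K.Dom c.M) → Prop} (h : Df K γ R)
    (hR : ∀ c x, R c x ↔ R' c x) : Df K γ R' := by
  obtain ⟨ψ, hψ⟩ := h
  exact ⟨ψ, fun c x => (hψ c x).trans (hR c x)⟩

lemma Df.falsum : Df K γ (fun _ _ => False) := ⟨⊥, fun c x => by
  simp [Formula.Realize]⟩

lemma Df.imp {R R' : ∀ c : Cx K, (γ → K.Dom c.M) → Prop} (h : Df K γ R) (h' : Df K γ R') :
    Df K γ (fun c x => R c x → R' c x) := by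
  obtain ⟨ψ, hψ⟩ := h
  obtain ⟨ψ', hψ'⟩ := h'
  refine ⟨ψ.imp ψ', fun c x => ?_⟩
  rw [Formula.realize_imp, hψ, hψ']

lemma Df.and {R R' : ∀ c : Cx K, (γ → K.Dom c.M) → Prop} (h : Df K γ R) (h' : Df K γ R') :
    Df K γ (fun c x => R c x ∧ R' c x) := by
  obtain ⟨ψ, hψ⟩ := h
  obtain ⟨ψ', hψ'⟩ := h'
  refine ⟨ψ ⊓ ψ', fun c x => ?_⟩
  rw [Formula.realize_inf, hψ, hψ']

lemma Df.relabel {R : ∀ c : Cx K, (γ → K.Dom c.M) → Prop} (h : Df K γ R) (g : γ → δ) :
    Df K δ (fun c x => R c (fun a => x (g a))) := by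
  obtain ⟨ψ, hψ⟩ := h
  refine ⟨ψ.relabel (fun p => (g p.1, p.2)), fun c x => ?_⟩
  rw [Formula.realize_relabel]
  exact hψ c (fun a => x (g a))

lemma Df.forall [Finite ι] {R : ι → ∀ c : Cx K, (γ → K.Dom c.M) → Prop}
    (h : ∀ i, Df K γ (R i)) : Df K γ (fun c x => ∀ i, R i c x) := by
  choose ψ hψ using h
  refine ⟨Formula.iInf ψ, fun c x => ?_⟩
  rw [Formula.realize_iInf]
  exact forall_congr' fun i => hψ i c x

lemma Df.ex [Finite ι] {R : ∀ c : Cx K, (γ ⊕ ι → K.Dom c.M) → Prop} (h : Df K (γ ⊕ ι) R) :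
    Df K γ (fun c x => ∃ z : ι → K.Dom c.M, R c (Sum.elim x z)) := by
  obtain ⟨ψ, hψ⟩ := h
  let d : L.Formula ((γ × Fin K.dim) ⊕ (ι × Fin K.dim)) :=
    Formula.iInf (fun i : ι => K.dom.relabel (fun j => Sum.inr (i, j)))
  let ψ' : L.Formula ((γ × Fin K.dim) ⊕ (ι × Fin K.dim)) :=
    ψ.relabel (fun p => Sum.elim (fun a => Sum.inl (a, p.2)) (fun i => Sum.inr (i, p.2)) p.1)
  refine ⟨(d ⊓ ψ').iExs (ι × Fin K.dim), fun c x => ?_⟩
  rw [Formula.realize_iExs]
  constructor
  · rintro ⟨w, hw⟩
    rw [Formula.realize_inf, Formula.realize_iInf] at hw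
    obtain ⟨h1, h2⟩ := hw
    have h1' : ∀ i, K.dom.Realize (fun j => w (i, j)) := by
      intro i
      have := h1 i
      rw [Formula.realize_relabel] at this
      exact this
    refine ⟨fun i => ⟨fun j => w (i, j), h1' i⟩, ?_⟩
    rw [← hψ]
    rw [Formula.realize_relabel] at h2
    convert h2 using 1
    funext p
    rcases p with ⟨a | i, j⟩ <;> rfl
  · rintro ⟨z, hz⟩
    rw [← hψ] at hz
    refine ⟨fun p => (z p.1).1 p.2, ?_⟩
    rw [Formula.realize_inf, Formula.realize_iInf]
    constructor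
    · intro i
      rw [Formula.realize_relabel]
      exact (z i).2
    · rw [Formula.realize_relabel]
      convert hz using 1
      funext p
      rcases p with ⟨a | i, j⟩ <;> rfl

lemma Df.all [Finite ι] {R : ∀ c : Cx K, (γ ⊕ ι → K.Dom c.M) → Prop} (h : Df K (γ ⊕ ι) R) :
    Df K γ (fun c x => ∀ z : ι → K.Dom c.M, R c (Sum.elim x z)) := by
  refine ((h.imp Df.falsum).ex.imp Df.falsum).congr ?_
  intro c x
  constructor
  · intro h z
    by_contra hz
    exact h ⟨z, hz⟩
  · rintro h ⟨z, hz⟩
    exact hz (h z)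

lemma Df.eqv : Df K (Fin 2) (fun c x => c.f (x 0) = c.f (x 1)) :=
  ⟨K.eqv, fun c x => c.hf.eqv x⟩

lemma Df.func {n : ℕ} (F : L'.Functions n) :
    Df K (Fin (n + 1)) (fun c x =>
      Structure.funMap F (fun i : Fin n => c.f (x i.castSucc)) = c.f (x (Fin.last n))) :=
  ⟨K.func F, fun c x => c.hf.func F x⟩

lemma Df.rel {n : ℕ} (F : L'.Relations n) :
    Df K (Fin n) (fun c x => Structure.RelMap F (fun i => c.f (x i))) :=
  ⟨K.rel F, fun c x => c.hf.rel F x⟩

/-- Translation of terms. -/
lemma df_term (t : L'.Term γ) :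
    Df K (γ ⊕ Unit) (fun c x => t.realize (fun a => c.f (x (Sum.inl a))) = c.f (x (Sum.inr ()))) := by
  induction t with
  | var a =>
    refine (Df.eqv.relabel ![Sum.inl a, Sum.inr ()]).congr ?_
    intro c x
    rfl
  | func F ts ih =>
    rename_i l
    have h1 : Df K ((γ ⊕ Unit) ⊕ Fin l) (fun c x => ∀ i : Fin l,
        (ts i).realize (fun a => c.f (x (Sum.inl (Sum.inl a)))) = c.f (x (Sum.inr i))) := by
      refine Df.forall fun i => ?_
      refine ((ih i).relabel (Sum.elim (fun a => Sum.inl (Sum.inl a)) (fun _ => Sum.inr i))).congr ?_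
      intro c x
      rfl
    have h2 : Df K ((γ ⊕ Unit) ⊕ Fin l) (fun c x =>
        Structure.funMap F (fun i : Fin l => c.f (x (Sum.inr i))) =
          c.f (x (Sum.inl (Sum.inr ())))) := by
      refine ((Df.func F).relabel
        (Fin.lastCases (Sum.inl (Sum.inr ())) (fun i => Sum.inr i))).congr ?_
      intro c x
      simp
    refine (h1.and h2).ex.congr ?_
    intro c x
    constructor
    · rintro ⟨z, h3, h4⟩
      simp only [Sum.elim_inl, Sum.elim_inr] at h3 h4
      rw [Term.realize_func, ← h4]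
      congr 1
      funext i
      exact h3 i
    · intro h
      choose z hz using fun i : Fin l =>
        c.hf.surj ((ts i).realize (fun a => c.f (x (Sum.inl a))))
      refine ⟨z, fun i => ?_, ?_⟩
      · simp only [Sum.elim_inl, Sum.elim_inr]
        exact (hz i).symm
      · simp only [Sum.elim_inl, Sum.elim_inr]
        rw [← h, Term.realize_func]
        congr 1
        funext i
        exact hz i

/-- Translation of formulas. -/
lemma df_form {β : Type} {m : ℕ} (φ : L'.BoundedFormula β m) :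
    Df K (β ⊕ Fin m) (fun c x => φ.Realize (fun b => c.f (x (Sum.inl b)))
      (fun i => c.f (x (Sum.inr i)))) := by
  have key : ∀ {m : ℕ} (c : Cx K) (x : β ⊕ Fin m → K.Dom c.M),
      Sum.elim (fun b => c.f (x (Sum.inl b))) (fun i => c.f (x (Sum.inr i))) =
        fun a => c.f (x a) := by
    intro m c x
    funext a
    rcases a with a | a <;> rfl
  induction φ with
  | falsum => exact Df.falsum
  | equal s t =>
    rename_i m
    have h1 : Df K ((β ⊕ Fin m) ⊕ Unit) (fun c x =>
      s.realize (fun a => c.f (x (Sum.inl a))) = c.f (x (Sum.inr ()))) := df_term s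
    have h2 : Df K ((β ⊕ Fin m) ⊕ Unit) (fun c x =>
      t.realize (fun a => c.f (x (Sum.inl a))) = c.f (x (Sum.inr ()))) := df_term t
    refine (h1.and h2).ex.congr ?_
    intro c x
    simp only [Sum.elim_inl, Sum.elim_inr, BoundedFormula.Realize, key]
    constructor
    · rintro ⟨z, h3, h4⟩
      rw [h3, h4]
    · intro h
      obtain ⟨z, hz⟩ := c.hf.surj (s.realize (fun a => c.f (x a)))
      exact ⟨fun _ => z, hz.symm, h.symm.trans hz.symm⟩
  | rel R ts =>
    rename_i m l
    have h1 : Df K ((β ⊕ Fin m) ⊕ Fin l) (fun c x => ∀ i : Fin l,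
        (ts i).realize (fun a => c.f (x (Sum.inl a))) = c.f (x (Sum.inr i))) := by
      refine Df.forall fun i => ?_
      refine ((df_term (ts i)).relabel
        (Sum.elim (fun a => Sum.inl a) (fun _ => Sum.inr i))).congr ?_
      intro c x
      rfl
    have h2 : Df K ((β ⊕ Fin m) ⊕ Fin l) (fun c x =>
        Structure.RelMap R (fun i : Fin l => c.f (x (Sum.inr i)))) :=
      (Df.rel R).relabel (fun i => Sum.inr i)
    refine (h1.and h2).ex.congr ?_
    intro c x
    simp only [Sum.elim_inl, Sum.elim_inr, BoundedFormula.Realize, key]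
    constructor
    · rintro ⟨z, h3, h4⟩
      have : (fun i => (ts i).realize (fun a => c.f (x a))) = fun i => c.f (z i) := funext h3
      rw [this]
      exact h4
    · intro h
      choose z hz using fun i : Fin l => c.hf.surj ((ts i).realize (fun a => c.f (x a)))
      refine ⟨z, fun i => (hz i).symm, ?_⟩
      have : (fun i => (ts i).realize (fun a => c.f (x a))) = fun i => c.f (z i) :=
        funext fun i => (hz i).symm
      rw [this] at h
      exact h
  | imp φ ψ ih1 ih2 => exact ih1.imp ih2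
  | all φ ih =>
    rename_i m
    have h1 : Df K ((β ⊕ Fin m) ⊕ Unit) (fun c x => φ.Realize
        (fun b => c.f (x (Sum.inl (Sum.inl b))))
        (Fin.snoc (fun i => c.f (x (Sum.inl (Sum.inr i)))) (c.f (x (Sum.inr ()))))) := by
      refine (ih.relabel (Sum.elim (fun b => Sum.inl (Sum.inl b))
        (Fin.lastCases (Sum.inr ()) (fun i => Sum.inl (Sum.inr i))))).congr ?_
      intro c x
      have : (fun i : Fin (m + 1) => c.f (x (Sum.elim (fun b => Sum.inl (Sum.inl b))
        (Fin.lastCases (Sum.inr ()) (fun i => Sum.inl (Sum.inr i)) :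
          Fin (m + 1) → (β ⊕ Fin m) ⊕ Unit) (Sum.inr i)))) =
        (Fin.snoc (fun i => c.f (x (Sum.inl (Sum.inr i)))) (c.f (x (Sum.inr ()))) :
          Fin (m + 1) → c.A) := by
        funext i
        refine Fin.lastCases ?_ (fun i => ?_) i
        · simp
        · simp
      rw [this]
      rfl
    refine h1.all.congr ?_
    intro c x
    simp only [Sum.elim_inl, Sum.elim_inr, BoundedFormula.Realize]
    constructor
    · intro h a
      obtain ⟨z, hz⟩ := c.hf.surj a
      have := h (fun _ => z)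
      rw [hz] at this
      exact this
    · intro h z
      exact h (c.f (z ()))

theorem translateG : TranslateG := by
  intro L' L K β m φ
  obtain ⟨ψ, hψ⟩ := df_form (K := K) φ
  refine ⟨ψ, ?_⟩
  intro M _ A _ f hf y x
  exact hψ ⟨M, A, f, hf⟩ (Sum.elim y x)

theorem translateS : TranslateS := by
  intro L' L K m φ
  obtain ⟨ψ, hψ⟩ := translateG L' L K Empty m φ
  refine ⟨ψ.relabel (fun p => (Sum.elim (fun e => e.elim) id p.1, p.2)), ?_⟩
  intro M _ A _ f hf x
  rw [Formula.realize_relabel]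
  have h := hψ M A f hf (fun e => e.elim) x
  have h1 : (fun b : Empty => f ((fun e : Empty => e.elim) b)) = default :=
    Subsingleton.elim _ _
  rw [h1] at h
  rw [← h]
  have h2 : (fun p : (Empty ⊕ Fin m) × Fin K.dim =>
      (Sum.elim (fun e : Empty => e.elim) x p.1).1 p.2) =
      (fun p : Fin m × Fin K.dim => (x p.1).1 p.2) ∘
        (fun p => (Sum.elim (fun e => e.elim) id p.1, p.2)) := by
    funext p
    rcases p with ⟨e | i, j⟩
    · exact e.elim
    · rfl
  rw [h2]

end Pool.Agent.Helper364_SQ.Transl
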