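import Pool.Agent.Helper364_SQ.Final
import Pool.Agent.Helper364_SQ.StdMat
import Pool.Agent.Helper364_SQ.StdMain
import Pool.Agent.Helper364_SQ.StdRob
import Pool.Agent.Helper364_SQ.HalR
import Pool.Agent.Helper364_SQ.CongTr
import Pool.Agent.Helper364_SQ.RrRec
import Pool.Agent.Helper364_SQ.DiagM
import Pool.Agent.Helper364_SQ.CompC
import Pool.Agent.Helper364_SQ.UTSm
import Pool.Agent.Helper364_SQ.UTRec
import Pool.Agent.Helper364_SQ.Game
import Pool.Agent.Helper364_SQ.GameC
import Pool.Agent.Helper364_SQ.Transf
import Pool.Agent.Helper364_SQ.ExtCol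
import Pool.Agent.Helper364_SQ.MUMod
import Pool.Agent.Helper364_SQ.Transl
import Pool.Agent.Helper364_SQ.Comps
import Pool.Agent.Helper364_SQ.UDefs
import Pool.Agent.Helper364_SQ.ClaimOne
import Pool.Agent.TH686.BA.Nat

/-!
# All lemmas
-/

set_option autoImplicit false

namespace Pool.Agent.Helper364_SQ

theorem lems : Lems where
  exHalRep := HalR.exHalRep
  exCong := CongTr.exCong
  satTr := CongTr.satTr
  congIff := CongTr.congIff
  diagS := DiagM.diagS RrRec.rrRE
  claim1 := ClaimOne.claim1 (StdMain.stdAx StdMat.matExt StdMat.matInv StdMat.matSym)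
    StdRob.stdQ CongTr.satTr CongTr.congIff
  cComp := CompC.cComp
  utIff := UTSm.utIff
  utSeq := UTSm.utSeq
  utRE := UTRec.utRE
  luFin := UTSm.luFin
  transferS := Transf.transferS Game.efs (GameC.covS Game.lowS) (GameC.symS Game.lowS)
  ctApx := GameC.ctApx
  exRank := GameC.exRank
  extS := ExtCol.extS Game.lowS
  muModel := MUMod.muModel Game.lowS
  translateS := Transl.translateS
  compS := Comps.compS Transl.translateG
  cdtS := UDefs.cdtS
  udInt := UDefs.udInt UDefs.udForm

/-- The natural numbers are a model of `S^1_2`. -/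
theorem isModelS12_nat : IsModelS12 TH686.BA.natStr where
  basic := TH686.BA.natStr_basic
  pind := fun n φ _ v h0 hs x => by
    induction x using Nat.strong_induction_on with
    | _ x ih =>
      rcases Nat.eq_zero_or_pos x with h | h
      · rw [h]
        exact h0
      · exact hs x (ih (x / 2) (Nat.div_lt_self h (by decide)))

end Pool.Agent.Helper364_SQ
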