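import Pool.Agent.Helper364_SQ.AxSem

/-!
# The diagonal argument: definitions
-/

set_option autoImplicit false

namespace Pool.Agent.Helper364_SQ

open Pool.Agent.TH672 (Fm Str upd Pv)
open Pool.Agent.TH636.BC (Fml inst robinson)

/-- The program with the number `c` halts on the input `i` (in `s` steps). -/
def Hal (c s i : ℕ) : Prop :=
  (Nat.Partrec.Code.evaln s (Denumerable.ofNat Nat.Partrec.Code c) i).isSome = true

/-- The formulas which may be used as definitions: only the variables `0`, `1`, `2`, `3` are free
and only the symbols `op i` with `i < 100` occur. -/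
def Ok (φ : Fml) : Prop := (∀ x, φ.Free x → x < 4) ∧ OpB 100 φ

/-- The definition of the symbol `op (100 + t)` by the formula `φ`. -/
def dF (t : ℕ) (φ : Fml) : Fml :=
  .all 0 (.all 1 (.all 2 (.all 3 (.iff (.op (100 + t) 0 1 2 3) φ))))

/-- The axioms of the structures with the parameters `c` and `n`. -/
def Sax (σ0 : Fml) (c n : ℕ) : List Fml :=
  σ0 :: inst 2 n (.op 17 2 2 2 2) :: inst 2 c (.op 18 2 2 2 2) :: robinson

/-- The translation of formulas: `op 100` is the domain, `op 101` the identity, `op 102`, `op 103`,
`op 104`, `op 105` zero, successor, addition and multiplication, and all symbols `op i` are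
translated by `op 106`. -/
def tr : Fml → Fml
  | .bot => .bot
  | .eq x y => .op 101 x y y y
  | .zero x => .op 102 x x x x
  | .succ x y => .op 103 x y y y
  | .add x y z => .op 104 x y z z
  | .mul x y z => .op 105 x y z z
  | .op _ a _ _ _ => .op 106 a a a a
  | .imp φ ψ => .imp (tr φ) (tr ψ)
  | .all x φ => .all x (.imp (.op 100 x x x x) (tr φ))

/-- the conjunction of a list -/
def conjL : List Fml → Fml
  | [] => .neg .bot
  | φ :: Γ => .and φ (conjL Γ)

/-- The set given by `op 0` contains zero and is closed under successor. -/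
def cutF : Fml :=
  .and (.ex 0 (.and (.zero 0) (.op 0 0 0 0 0)))
    (.all 0 (.all 1 (.imp (.succ 0 1) (.imp (.op 0 0 0 0 0) (.op 0 1 1 1 1)))))

/-- Robinson arithmetic, the set given by `op 0` is a cut, and no member of the cut is the number
of steps of a halting computation of the program `c` on the input `n`. -/
def theta (P : Fml) (c n : ℕ) : Fml :=
  .and (conjL robinson) (.and cutF
    (inst 2 c (inst 4 n (.all 3 (.imp (.op 0 3 3 3 3) (.neg P))))))

/-- The formula to be proved: `Γ0` (the congruence axioms) and the translation of `theta`. -/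
def target (Γ0 P : Fml) (c n : ℕ) : Fml := .and Γ0 (tr (theta P c n))

/-- The interpretability relation of the diagonal argument. -/
def Rr (σ0 Γ0 P : Fml) (c n : ℕ) : Prop :=
  ∃ φ : Fin 7 → Fml, (∀ t, Ok (φ t)) ∧
    Pv (fun ψ => ψ ∈ Sax σ0 c n ++ List.ofFn (fun t : Fin 7 => dF t (φ t))) (target Γ0 P c n)

/-- Statement: the diagonal lemma. -/
def DiagS : Prop := ∀ σ0 Γ0 P : Fml, ∃ c : ℕ, ∀ n, (∃ s, Hal c s n) ↔ Rr σ0 Γ0 P c n

end Pool.Agent.Helper364_SQ
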