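import Pool.Agent.Helper364_SQ.Sem

/-!
# The final argument
-/

set_option autoImplicit false

namespace Pool.Agent.Helper364_SQ

open FirstOrder FirstOrder.Language
open Pool.Agent.TH672 (Fm Str upd Pv)
open Pool.Agent.TH636.BC (Fml inst robinson Arith)
open Pool.Agent.TH838.J1549 (Q exists_Q sat_inst)

/-- `NumS` in a model of Robinson arithmetic -/
theorem numS_iff {B : Type} [LU.Structure B] [Nonempty B] (q : Q (arS B)) :
    ∀ (i : ℕ) (x : B), NumS B i x ↔ x = q.nm i
  | 0, x => q.zero_iff x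
  | i + 1, x => by
    rw [NumS]
    constructor
    · rintro ⟨z, h1, h2⟩
      rw [numS_iff q i] at h2
      rw [h2] at h1
      exact (q.succ_iff (q.nm i) x).1 h1
    · intro h
      exact ⟨q.nm i, (q.succ_iff (q.nm i) x).2 h, (numS_iff q i _).2 rfl⟩

/-- The quotient structure satisfies `theta`. -/
theorem theta_of (P : Fml) (hP : HalRep P) (c n : ℕ) (B : Type) [LU.Structure B] [Nonempty B]
    (h : UTSem (inst 2 c P) B) (v : ℕ → (quo B n).M) : Fm.Sat (quo B n) (theta P c n) v := by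
  obtain ⟨q⟩ : Nonempty (Q (arS B)) := exists_Q (S := arS B) v fun ψ hψ => h.q ψ hψ v
  obtain ⟨q'⟩ : Nonempty (Q (quo B n)) := exists_Q (S := quo B n) v fun ψ hψ =>
    (sat_arith_quo B n ψ (arith_robinson ψ hψ) v).1 (h.q ψ hψ v)
  have hnm : ∀ i, q'.nm i = q.nm i := by
    intro i
    induction i with
    | zero => exact (q.zero_iff _).1 ((q'.zero_iff _).2 rfl)
    | succ i ih =>
      have h1 : (quo B n).succ (q'.nm i) (q'.nm (i + 1)) := (q'.succ_iff _ _).2 rfl
      have h2 : (arS B).succ (q'.nm i) (q'.nm (i + 1)) := h1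
      rw [q.succ_iff, ih] at h2
      exact h2
  rw [theta, Fm.sat_and, Fm.sat_and, sat_conjL]
  refine ⟨fun ψ hψ => (sat_arith_quo B n ψ (arith_robinson ψ hψ) v).1 (h.q ψ hψ v), ?_, ?_⟩
  · have hn : NumS B n (q.nm n) := (numS_iff q n _).2 rfl
    rw [cutF, Fm.sat_and]
    constructor
    · rw [Fm.sat_ex]
      obtain ⟨j, d, r, h1, h2, h3⟩ := h.a1 n _ hn
      refine ⟨j, ?_⟩
      rw [Fm.sat_and, Fm.sat_zero, Fm.sat_op]
      simp only [TH672.upd_same]
      exact ⟨h1, q.nm n, d, r, hn, h2, h3⟩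
    · rw [Fm.sat_all]
      intro a
      rw [Fm.sat_all]
      intro b
      rw [Fm.sat_imp, Fm.sat_imp, Fm.sat_succ, Fm.sat_op, Fm.sat_op]
      have e0 : upd (upd v 0 a) 1 b 0 = a := by
        rw [TH672.upd_ne _ _ (by decide), TH672.upd_same]
      have e1 : upd (upd v 0 a) 1 b 1 = b := by rw [TH672.upd_same]
      rw [e0, e1]
      rintro h1 ⟨z, d, r, h2, h3, h4⟩
      obtain ⟨j', d', r', h5, h6, h7⟩ := h.a2 n z h2 a d r h3 h4
      have e2 : b = q.s a := (q.succ_iff a b).1 h1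
      have e3 : j' = q.s a := (q.succ_iff a j').1 h5
      have e4 : b = j' := e2.trans e3.symm
      rw [e4]
      exact ⟨z, d', r', h2, h6, h7⟩
  · have hF : ∀ x, (Fm.all 3 (.imp (.op 0 3 3 3 3) (.neg P))).Free x → x = 2 ∨ x = 4 := by
      intro x hx
      simp only [Fm.Free, Fm.neg, or_false] at hx
      rcases hx.2 with h5 | h5
      · omega
      · have := hP.2.1 x h5
        omega
    rw [sat_inst q' (by omega) (fun hx => (TH838.J1549.free_inst hx).1 rfl)
      (fun hx => by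
        have := hF 1 (TH838.J1549.free_inst hx).2.2
        omega),
      sat_inst q' (by omega) (fun hx => by have := hF 0 hx; omega)
      (fun hx => by have := hF 1 hx; omega), Fm.sat_all]
    intro a
    rw [Fm.sat_imp, Fm.sat_neg, Fm.sat_op]
    simp only [TH672.upd_same]
    rintro ⟨z, d, r, h2, h3, h4⟩ h5
    refine h.a3 n z h2 a d r h3 h4 ?_
    rw [sat_inst q (by omega) (fun hx => by have := hP.2.1 0 hx; omega)
      (fun hx => by have := hP.2.1 1 hx; omega), sat_arith_quo B n P hP.1]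
    refine (TH838.J1549.sat_cong fun x hx => ?_).1 h5
    have hz : z = q.nm n := (numS_iff q n z).1 h2
    have := hP.2.1 x hx
    rcases this with rfl | rfl | rfl
    · rw [TH672.upd_ne _ _ (by decide), TH672.upd_ne _ _ (by decide), TH672.upd_same,
        TH672.upd_same, hnm]
    · rw [TH672.upd_same, TH672.upd_ne _ _ (by decide)]
      simp
    · rw [TH672.upd_ne _ _ (by decide), TH672.upd_same, TH672.upd_ne _ _ (by decide), hnm]
      simp [hz]

theorem free_tr : ∀ {φ : Fml} {x : ℕ}, (tr φ).Free x → φ.Free x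
  | .bot, _, h => h
  | .eq _ _, _, h => by simp only [tr, Fm.Free] at h ⊢; tauto
  | .zero _, _, h => by simp only [tr, Fm.Free] at h ⊢; tauto
  | .succ _ _, _, h => by simp only [tr, Fm.Free] at h ⊢; tauto
  | .add _ _ _, _, h => by simp only [tr, Fm.Free] at h ⊢; tauto
  | .mul _ _ _, _, h => by simp only [tr, Fm.Free] at h ⊢; tauto
  | .op _ _ _ _ _, _, h => by simp only [tr, Fm.Free] at h ⊢; tauto
  | .imp φ ψ, _, h => h.imp (fun h => free_tr (φ := φ) h) (fun h => free_tr (φ := ψ) h)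
  | .all y φ, x, h => by
    simp only [tr, Fm.Free] at h ⊢
    rcases h with ⟨h1, h2 | h2⟩
    · omega
    · exact ⟨h1, free_tr h2⟩

/-- Evaluation of the definitions. -/
theorem def_iff {S : Str ℕ} {v : ℕ → S.M} {t : ℕ} {φ : Fml}
    (h : Fm.Sat S (dF t φ) v) (x : Fin 4 → S.M) :
    S.op (100 + t) (x 0) (x 1) (x 2) (x 3) ↔
      Fm.Sat S φ (upd (upd (upd (upd v 0 (x 0)) 1 (x 1)) 2 (x 2)) 3 (x 3)) := by
  have h1 := h (x 0) (x 1) (x 2) (x 3)
  rw [Fm.sat_iff, Fm.sat_op] at h1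
  have e0 : upd (upd (upd (upd v 0 (x 0)) 1 (x 1)) 2 (x 2)) 3 (x 3) 0 = x 0 := by
    simp [upd]
  have e1 : upd (upd (upd (upd v 0 (x 0)) 1 (x 1)) 2 (x 2)) 3 (x 3) 1 = x 1 := by
    simp [upd]
  have e2 : upd (upd (upd (upd v 0 (x 0)) 1 (x 1)) 2 (x 2)) 3 (x 3) 2 = x 2 := by
    simp [upd]
  have e3 : upd (upd (upd (upd v 0 (x 0)) 1 (x 1)) 2 (x 2)) 3 (x 3) 3 = x 3 := by
    simp [upd]
  rw [e0, e1, e2, e3] at h1
  exact h1

theorem upd4 {M : Type} (v : ℕ → M) (x : Fin 4 → M) :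
    (fun b : Fin 4 => upd (upd (upd (upd v 0 (x 0)) 1 (x 1)) 2 (x 2)) 3 (x 3) (b : ℕ)) = x := by
  funext b
  fin_cases b <;> simp [upd]

/-- The relations given by the definitions. -/
theorem trRel_of (P : Fml) (S : Str ℕ) (hcd : CdtS) (hAx : AxSem P S) (KN : Interp LU LU) (n : ℕ)
    (B : Type) [LU.Structure B] [Nonempty B] (g : KN.Dom (MU S (CtS S)) → B)
    (hg : KN.Realizes (MU S (CtS S)) B g)
    (χ : Fin 7 → LU.Formula (Fin 4 × Fin KN.dim))
    (hχ : ∀ t (M : Type) [LU.Structure M] (A : Type) [LU.Structure A] (f : KN.Dom M → A),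
      KN.Realizes M A f → ∀ x : Fin 4 → KN.Dom M,
        ((χ t).Realize (fun p => (x p.1).1 p.2) ↔ (psi n t).Realize default (fun i => f (x i))))
    (hdef : ∀ (t : Fin 7) (x : Fin 4 → S.M), S.op (100 + t) (x 0) (x 1) (x 2) (x 3) ↔
      RelN KN (χ t) S x) :
    ∃ h : S.M → B, TrRel S (quo B n) h := by
  classical
  -- the domain
  let D : S.M → Prop := fun a => ∃ w : Fin KN.dim → S.M, Cdt S KN.dim a w ∧
    KN.dom.Realize (M := MU S (CtS S)) w
  let h : S.M → B := fun a => if ha : D a then g ⟨ha.choose, ha.choose_spec.2⟩ else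
    Classical.arbitrary B
  have hw : ∀ (a : S.M) (w : Fin KN.dim → S.M) (h1 : Cdt S KN.dim a w)
      (h2 : KN.dom.Realize (M := MU S (CtS S)) w), h a = g ⟨w, h2⟩ := by
    intro a w h1 h2
    have ha : D a := ⟨w, h1, h2⟩
    have e : ha.choose = w := (hcd P S hAx KN.dim).2 a _ _ ha.choose_spec.1 h1
    show (if ha : D a then g ⟨ha.choose, ha.choose_spec.2⟩ else Classical.arbitrary B) = _
    rw [dif_pos ha]
    congr 1
    exact Subtype.ext e
  have key : ∀ (t : Fin 7) (x : Fin 4 → S.M), (∀ i, D (x i)) →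
      (S.op (100 + t) (x 0) (x 1) (x 2) (x 3) ↔
        (psi n t).Realize default (fun i => h (x i))) := by
    intro t x hx
    rw [hdef]
    choose w hw1 hw2 using hx
    have e : (fun i => h (x i)) = fun i => g ⟨w i, hw2 i⟩ := by
      funext i
      exact hw _ _ (hw1 i) (hw2 i)
    rw [e, ← hχ t (MU S (CtS S)) B g hg (fun i => ⟨w i, hw2 i⟩)]
    constructor
    · rintro ⟨w', h1, h2⟩
      have e2 : w' = w := by
        funext i
        exact (hcd P S hAx KN.dim).2 (x i) _ _ (h1 i).1 (hw1 i)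
      rw [e2] at h2
      exact h2
    · intro h2
      exact ⟨w, fun i => ⟨hw1 i, hw2 i⟩, h2⟩
  have hdom : ∀ a, S.op 100 a a a a ↔ D a := by
    intro a
    have h1 := hdef 0 (fun _ => a)
    constructor
    · intro h2
      obtain ⟨w, h3, _⟩ := h1.1 h2
      exact ⟨w 0, h3 0⟩
    · intro h2
      refine (key 0 (fun _ => a) (fun _ => h2)).2 ?_
      show (⊤ : LU.BoundedFormula Empty 4).Realize _ _
      exact BoundedFormula.realize_top.2 trivial
  refine ⟨h, ⟨?_, ?_, ?_, ?_, ?_, ?_, ?_⟩⟩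
  · intro b
    obtain ⟨⟨w, hw'⟩, hb⟩ := hg.surj b
    obtain ⟨x, hx⟩ := (hcd P S hAx KN.dim).1 w
    exact ⟨x, (hdom x).2 ⟨w, hx, hw'⟩, (hw x w hx hw').trans hb⟩
  · intro a b ha hb
    rw [hdom] at ha hb
    exact key 1 ![a, b, b, b] (by intro i; fin_cases i <;> assumption)
  · intro a ha
    rw [hdom] at ha
    exact (key 2 ![a, a, a, a] (by intro i; fin_cases i <;> assumption)).trans
      (realize_rel1 B URel.zero _ 0)
  · intro a b ha hb
    rw [hdom] at ha hb
    exact (key 3 ![a, b, b, b] (by intro i; fin_cases i <;> assumption)).trans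
      (realize_rel2 B URel.succ _ 0 1)
  · intro a b c ha hb hc
    rw [hdom] at ha hb hc
    exact (key 4 ![a, b, c, c] (by intro i; fin_cases i <;> assumption)).trans
      (realize_rel3 B URel.add _ 0 1 2)
  · intro a b c ha hb hc
    rw [hdom] at ha hb hc
    exact (key 5 ![a, b, c, c] (by intro i; fin_cases i <;> assumption)).trans
      (realize_rel3 B URel.mul _ 0 1 2)
  · intro _ a _ _ _ ha
    rw [hdom] at ha
    exact (key 6 ![a, a, a, a] (by intro i; fin_cases i <;> assumption)).trans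
      (realize_cutn B n _)

/-- All lemmas. -/
structure Lems : Prop where
  exHalRep : ExHalRep
  exCong : ExCong
  satTr : SatTr
  congIff : CongIff
  diagS : DiagS
  claim1 : Claim1
  cComp : CComp
  utIff : UTIff
  utSeq : UTSeq
  utRE : UTRE
  luFin : LUFin
  transferS : TransferS
  ctApx : CtApx
  exRank : ExRank
  extS : ExtS
  muModel : MUModel
  translateS : TranslateS
  compS : CompS
  cdtS : CdtS
  udInt : UDInt

/-- The main theorem. -/
theorem main (H : Lems) : ∃ (L : FirstOrder.Language.{0, 0}) (U : L.Theory),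
    Finite (Σ n, L.Functions n) ∧ Finite (Σ n, L.Relations n) ∧ IsRE U ∧ IsSequential U ∧
    ∀ T : LBA.Theory, ExtendsS12 T → ¬ MutuallyInterpretable U T := by
  obtain ⟨P, hP⟩ := H.exHalRep
  obtain ⟨σ0, hσa, hσf, hσ⟩ := ud_axSem P (OpB.of_arith hP.1) (fun e : Empty => e.elim)
  have hσc : σ0.Closed := fun x hx => by
    obtain ⟨b, _⟩ := hσf x hx
    exact b.elim
  obtain ⟨Γ0, hΓc, hΓ⟩ := H.exCong
  obtain ⟨c, hc⟩ := H.diagS σ0 Γ0 P
  have hR : ∀ n, ¬ Rr σ0 Γ0 P c n := H.claim1 P σ0 Γ0 c hP hσ hΓ hc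
  have hH : ∀ s i, ¬ Hal c s i := fun s i h => hR i ((hc i).1 ⟨s, h⟩)
  refine ⟨LU, UT (inst 2 c P), H.luFin.1, H.luFin.2, H.utRE _, H.utSeq _, ?_⟩
  rintro T hT ⟨⟨N, hN⟩, ⟨K, hK⟩⟩
  obtain ⟨KN, hKN⟩ := H.compS LU LBA LU K N
  obtain ⟨k, hk⟩ := H.exRank N
  let n := k + 3 * N.dim + 2
  choose χ hχ using fun t : Fin 7 => H.translateS LU LU KN 4 (psi n t)
  choose φ h1 h2 h3 using fun t : Fin 7 => H.udInt KN 4 (χ t) (fun b : Fin 4 => (b : ℕ))
  have hOk : ∀ t, Ok (φ t) := fun t => ⟨fun x hx => by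
    obtain ⟨b, hb⟩ := h2 t x hx
    omega, h1 t⟩
  refine hR n ⟨φ, hOk, H.cComp _ _ ?_ ?_ ?_⟩
  · -- closed
    intro ψ hψ
    rw [List.mem_append] at hψ
    rcases hψ with hψ | hψ
    · rw [Sax, List.mem_cons, List.mem_cons, List.mem_cons] at hψ
      rcases hψ with rfl | rfl | rfl | hψ
      · exact hσc
      · intro x hx
        have h := TH838.J1549.free_inst hx
        simp only [Fm.Free, or_self] at h
        omega
      · intro x hx
        have h := TH838.J1549.free_inst hx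
        simp only [Fm.Free, or_self] at h
        omega
      · exact TH838.J1549.closed_robinson ψ hψ
    · rw [List.mem_ofFn] at hψ
      obtain ⟨t, rfl⟩ := hψ
      intro x hx
      simp only [dF, Fm.iff, Fm.and, Fm.neg, Fm.Free, or_false] at hx
      obtain ⟨hx0, hx1, hx2, hx3, hx4⟩ := hx
      have := (hOk t).1 x
      have h5 : (φ t).Free x → False := fun h => by
        have := this h
        omega
      tauto
  · intro x hx
    simp only [target, Fm.and, Fm.neg, Fm.Free, or_false] at hx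
    rcases hx with hx | hx
    · exact hΓc x hx
    · exact absurd (free_tr hx) (closed_theta hP.2.1 c n x)
  · intro S v hcount hS
    have hσS : AxSem P S := (hσ S v).1 (hS σ0 (by simp [Sax]))
    obtain ⟨q⟩ : Nonempty (Q S) := exists_Q v fun ψ hψ => hS ψ (by simp [Sax, hψ])
    have h17 : S.op 17 (q.nm n) (q.nm n) (q.nm n) (q.nm n) := by
      have h := hS (inst 2 n (.op 17 2 2 2 2)) (by simp [Sax])
      rw [sat_inst q (by omega) (by simp [Fm.Free]) (by simp [Fm.Free])] at h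
      simpa using h
    have h18 : S.op 18 (q.nm c) (q.nm c) (q.nm c) (q.nm c) := by
      have h := hS (inst 2 c (.op 18 2 2 2 2)) (by simp [Sax])
      rw [sat_inst q (by omega) (by simp [Fm.Free]) (by simp [Fm.Free])] at h
      simpa using h
    obtain ⟨C, hC⟩ := H.extS P S q n hcount hσS h17
    have hU : MU S C ⊨ UT (inst 2 c P) :=
      (H.utIff _ _).2 (H.muModel P S q c n C hP hσS h17 h18 hH hC)
    obtain ⟨A, _, _, f, hf, hA⟩ := hN (MU S C) hU
    obtain ⟨B, _, _, g, hg, hB⟩ := hK A hA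
    have hA' := (hT A hA).basic
    obtain ⟨f', hf'⟩ := H.transferS P S q n (CtS S) C hσS h17 (H.ctApx P S hσS) hC.apx
      (fun r hr => (hC.low r hr).symm) N k hk (by omega) A f hf
      (fun x y => (hA'.b6 x y).symm)
      (fun x y hx hy => hA'.b7 x y ⟨hx, hy⟩)
    obtain ⟨g', hg'⟩ := hKN (MU S (CtS S)) A B f' g hf' hg
    obtain ⟨h, hh⟩ := trRel_of P S H.cdtS hσS KN n B g' hg' χ hχ (by
      intro t x
      have h4 := hS (dF t (φ t)) (by
        rw [List.mem_append, List.mem_ofFn]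
        exact Or.inr ⟨t, rfl⟩)
      rw [def_iff h4 x, h3 t S, upd4])
    rw [target, Fm.sat_and]
    refine ⟨(hΓ S v).2 ((H.congIff S).2 ⟨quo B n, h, hh⟩), ?_⟩
    rw [H.satTr S (quo B n) h hh (theta P c n) v (fun x hx => absurd hx
      (closed_theta hP.2.1 c n x))]
    exact theta_of P hP c n B ((H.utIff _ _).1 hB) _

end Pool.Agent.Helper364_SQ
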