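import Pool.Agent.Helper364_SQ.AxSem

/-!
# The standard nice structure: definitions
-/

set_option autoImplicit false

namespace Pool.Agent.Helper364_SQ

open Pool.Agent.TH672 (Fm Str upd)
open Pool.Agent.TH636.BC (Fml)

/-- Codes of nodes: height `k`, the two coordinates `j`, `d` of the root, and the path (the last
step is the head of the list). The level of the root is `k` plus the length of the path. -/
abbrev Nd : Type := ℕ × ℕ × ℕ × List (ℕ × Bool)

/-- Codes of roots: level, first coordinate, second coordinate. -/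
abbrev Rc : Type := ℕ × ℕ × ℕ

/-- The elements of the standard structure. -/
inductive Ob : Type
  | num (m : ℕ) : Ob
  | node (a : Nd) : Ob
  | nil : Ob
  | cons (x y : Ob) : Ob
  | rho (X : Finset Rc) (V : Set Rc) : Ob
  | pi (s : Finset (Nd × Nd)) : Ob

namespace Ob

/-- successor: the objects that are not numbers are fixed -/
def sc : Ob → Ob
  | num m => num (m + 1)
  | x => x

/-- addition -/
def ad (x : Ob) : Ob → Ob
  | num m => sc^[m] x
  | y => y

/-- multiplication by a natural number -/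
def mlN (x : Ob) : ℕ → Ob
  | 0 => num 0
  | m + 1 => ad (mlN x m) x

/-- multiplication -/
def ml (x : Ob) : Ob → Ob
  | num m => mlN x m
  | y => match x with
    | num _ => y
    | _ => x

/-- membership in lists -/
def mem (x : Ob) : Ob → Prop
  | cons y z => x = y ∨ mem x z
  | _ => False

/-- the domain of a condition -/
def dm : Ob → Finset Rc
  | rho X _ => X
  | _ => ∅

/-- the values of a condition -/
def vl : Ob → Set Rc
  | rho _ V => V
  | _ => ∅

/-- the graph of a matching -/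
def pr : Ob → Finset (Nd × Nd)
  | pi s => s
  | _ => ∅

/-- all roots of nodes occurring in the object belong to `X` -/
def cov (X : Finset Rc) : Ob → Prop
  | node (k, j, d, p) => (k + p.length, j, d) ∈ X
  | cons x y => cov X x ∧ cov X y
  | _ => True

/-- the matching maps the first object to the second one -/
def app (s : Finset (Nd × Nd)) : Ob → Ob → Prop
  | node a, y => ∃ b, y = node b ∧ (a, b) ∈ s
  | cons x x', y => ∃ z z', y = cons z z' ∧ app s x z ∧ app s x' z'
  | x, y => y = x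

end Ob

/-- The type of the node with path `p` if the root has type `b`. -/
def ty (b : Prop) : List (ℕ × Bool) → Prop
  | [] => b
  | a :: p => a.2 = true ∨ ¬ ty b p

/-- the root of a node -/
def rtc (a : Nd) : Rc := (a.1 + a.2.2.2.length, a.2.1, a.2.2.1)

/-- Matchings of quality `m` between the conditions with domain `X` and values `V`, `V'`; the
levels smaller than `n` are fixed. -/
structure Mat (n m : ℕ) (X X' : Finset Rc) (V V' : Set Rc) (s : Finset (Nd × Nd)) : Prop where
  dom : X = X'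
  low : ∀ r ∈ X, r.1 < n → (r ∈ V ↔ r ∈ V')
  inj : ∀ x ∈ s, ∀ y ∈ s, (x.1 = y.1 ↔ x.2 = y.2)
  root : ∀ x ∈ s, rtc x.1 = rtc x.2 ∧ rtc x.1 ∈ X ∧ x.1.1 = x.2.1
  par : ∀ k j d a p b, ((k, j, d, a :: p), b) ∈ s →
    ∃ a' p', b = (k, j, d, a' :: p') ∧ ((k + 1, j, d, p), (k + 1, j, d, p')) ∈ s
  fix : ∀ x ∈ s, (rtc x.1).1 < n → x.1 = x.2
  type : ∀ x ∈ s, x.1.1 ≤ m →
    (ty (rtc x.1 ∈ V) x.1.2.2.2 ↔ ty (rtc x.2 ∈ V') x.2.2.2.2)

/-- The additional relations of the standard structure. -/
def stdOp (n c : ℕ) (X : ℕ → Ob → Ob → Ob → Ob → Prop) : ℕ → Ob → Ob → Ob → Ob → Prop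
  | 1, x, y, _, _ => Ob.mem x y
  | 2, x, y, _, _ => ∃ k j d a p, x = .node (k + 1, j, d, p) ∧ y = .node (k, j, d, a :: p)
  | 3, r, x, y, z => ∃ i j d, r = .node (i, j, d, []) ∧ x = .num i ∧ y = .num j ∧ z = .num d
  | 4, x, _, _, _ => ∃ j d p, x = .node (0, j, d, p) ∧ ty (p.length < n) p
  | 5, x, _, _, _ => ∃ m, x = .num m
  | 6, r, _, _, _ => ∃ i j d, r = .node (i, j, d, []) ∧ i < n
  | 7, x, _, _, _ => ∃ k j d p, x = .node (k, j, d, p) ∧ ty False p
  | 8, x, _, _, _ => ∃ k j d p, x = .node (k, j, d, p) ∧ ty True p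
  | 9, x, r, _, _ => ∃ k j d p, x = .node (k, j, d, p) ∧ r = .node (k + p.length, j, d, [])
  | 10, x, y, _, _ => ∃ k j d p, x = .node (k, j, d, p) ∧ y = .num k
  | 11, q, r, _, _ => ∃ i j d, r = .node (i, j, d, []) ∧ (i, j, d) ∈ q.dm
  | 12, q, r, _, _ => ∃ i j d, r = .node (i, j, d, []) ∧ (i, j, d) ∈ q.vl
  | 13, f, x, y, _ => Ob.app f.pr x y
  | 14, k, p, q, f => ∃ m, k = .num m ∧ Mat n m p.dm q.dm p.vl q.vl f.pr
  | 15, x, y, z, _ => z = .cons x y
  | 16, x, _, _, _ => ∃ m, x = .num m ∧ m < n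
  | 17, x, _, _, _ => x = .num n
  | 18, x, _, _, _ => x = .num c
  | 19, p, x, _, _ => Ob.cov p.dm x
  | 20, r, _, _, _ => ∃ i j d, r = .node (i, j, d, []) ∧ i < n
  | i, x, y, z, w => X i x y z w

/-- The standard structure; `X` gives the meaning of the remaining symbols. -/
def stdStr (n c : ℕ) (X : ℕ → Ob → Ob → Ob → Ob → Prop) : Str ℕ where
  M := Ob
  ne := ⟨.nil⟩
  zero x := x = .num 0
  succ x y := y = x.sc
  add x y z := z = x.ad y
  mul x y z := z = x.ml y
  op := stdOp n c X

/-- Statement: the standard structure is a nice structure. -/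
def StdAx : Prop := ∀ (n c : ℕ) (X : ℕ → Ob → Ob → Ob → Ob → Prop) (P : Fml),
  (∀ i j : ℕ, i < n → ¬ Fm.Sat (stdStr n c X) P (as3 (.num c) (.num j) (.num i))) →
  AxSem P (stdStr n c X)

end Pool.Agent.Helper364_SQ
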