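import Pool.Agent.Helper364_SQ.Theory
import Pool.Agent.Helper364_SQ.AxUD
import Pool.Agent.Helper364_SQ.StdDefs
import Pool.Agent.Helper364_SQ.DiagDefs
import Pool.Agent.TH838.J1549

/-!
# Statements of the lemmas
-/

set_option autoImplicit false

namespace Pool.Agent.Helper364_SQ

open FirstOrder FirstOrder.Language
open Pool.Agent.TH672 (Fm Str upd Pv)
open Pool.Agent.TH636.BC (Fml inst robinson Arith)
open Pool.Agent.TH838.J1549 (Q)

/-! ### The standard structure -/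

/-- Statement: extension of matchings. -/
def MatExt : Prop := ∀ (n m : ℕ) (X : Finset Rc) (V V' : Set Rc) (s : Finset (Nd × Nd))
  (l : List Nd), m + 1 < n → Mat n (m + 1) X X V V' s → (∀ a ∈ l, rtc a ∈ X) →
  ∃ s', s ⊆ s' ∧ Mat n m X X V V' s' ∧ ∀ a ∈ l, ∃ b, (a, b) ∈ s'

/-- Statement: the inverse of a matching. -/
def MatInv : Prop := ∀ (n m : ℕ) (X X' : Finset Rc) (V V' : Set Rc) (s : Finset (Nd × Nd)),
  Mat n m X X' V V' s → ∃ s', Mat n m X' X V' V s' ∧ ∀ a b, (b, a) ∈ s' ↔ (a, b) ∈ s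

/-- Statement: two matchings are connected by two involutions. -/
def MatSym : Prop := ∀ (n m : ℕ) (X : Finset Rc) (V V' : Set Rc) (f g : Finset (Nd × Nd)),
  m + 1 < n → Mat n m X X V V' f → Mat n m X X V V' g →
  ∃ e e', Mat n m X X V' V' e ∧ Mat n m X X V' V' e' ∧ ∀ x x1 x2, (x, x1) ∈ f → (x, x2) ∈ g →
    ∃ y, (x1, y) ∈ e ∧ (y, x1) ∈ e ∧ (y, x2) ∈ e' ∧ (x2, y) ∈ e'

/-- Statement: the standard structure satisfies Robinson arithmetic. -/
def StdQ : Prop := ∀ (n c : ℕ) (X : ℕ → Ob → Ob → Ob → Ob → Prop),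
  ∃ q : Q (stdStr n c X), ∀ m, q.nm m = Ob.num m

/-! ### The diagonal argument -/

/-- The formula `P` represents the halting relation. -/
def HalRep (P : Fml) : Prop :=
  Arith P ∧ (∀ x, P.Free x → x = 2 ∨ x = 3 ∨ x = 4) ∧
    ∀ (S : Str ℕ) (q : Q S) (v : ℕ → S.M) (c s i : ℕ), v 2 = q.nm c → v 3 = q.nm s →
      v 4 = q.nm i → (Fm.Sat S P v ↔ Hal c s i)

/-- Statement: the halting relation is representable. -/
def ExHalRep : Prop := ∃ P, HalRep P

/-- `op 101` is a congruence relation on the nonempty set `op 100` for `op 102`, `op 103`,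
`op 104`, `op 105`, `op 106`. -/
structure Cong (S : Str ℕ) : Prop where
  ne : ∃ x, S.op 100 x x x x
  refl : ∀ x, S.op 100 x x x x → S.op 101 x x x x
  symm : ∀ x y, S.op 100 x x x x → S.op 100 y y y y → S.op 101 x y y y → S.op 101 y x x x
  trans : ∀ x y z, S.op 100 x x x x → S.op 100 y y y y → S.op 100 z z z z →
    S.op 101 x y y y → S.op 101 y z z z → S.op 101 x z z z
  zero : ∀ x y, S.op 100 x x x x → S.op 100 y y y y → S.op 101 x y y y →
    S.op 102 x x x x → S.op 102 y y y y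
  succ : ∀ x y x' y', S.op 100 x x x x → S.op 100 y y y y → S.op 100 x' x' x' x' →
    S.op 100 y' y' y' y' → S.op 101 x x' x' x' → S.op 101 y y' y' y' →
    S.op 103 x y y y → S.op 103 x' y' y' y'
  add : ∀ x y z x' y' z', S.op 100 x x x x → S.op 100 y y y y → S.op 100 z z z z →
    S.op 100 x' x' x' x' → S.op 100 y' y' y' y' → S.op 100 z' z' z' z' →
    S.op 101 x x' x' x' → S.op 101 y y' y' y' → S.op 101 z z' z' z' →
    S.op 104 x y z z → S.op 104 x' y' z' z'
  mul : ∀ x y z x' y' z', S.op 100 x x x x → S.op 100 y y y y → S.op 100 z z z z →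
    S.op 100 x' x' x' x' → S.op 100 y' y' y' y' → S.op 100 z' z' z' z' →
    S.op 101 x x' x' x' → S.op 101 y y' y' y' → S.op 101 z z' z' z' →
    S.op 105 x y z z → S.op 105 x' y' z' z'
  cut : ∀ x y, S.op 100 x x x x → S.op 100 y y y y → S.op 101 x y y y →
    S.op 106 x x x x → S.op 106 y y y y

/-- Statement: a formula for `Cong`. -/
def ExCong : Prop := ∃ Γ0 : Fml, Γ0.Closed ∧ ∀ (S : Str ℕ) (v : ℕ → S.M), Fm.Sat S Γ0 v ↔ Cong S

/-- The structure `R` is the quotient of the structure defined in `S` by the symbols `op 100`, ...,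
`op 106`. -/
structure TrRel (S R : Str ℕ) (h : S.M → R.M) : Prop where
  surj : ∀ b, ∃ a, S.op 100 a a a a ∧ h a = b
  eq : ∀ a b, S.op 100 a a a a → S.op 100 b b b b → (S.op 101 a b b b ↔ h a = h b)
  zero : ∀ a, S.op 100 a a a a → (S.op 102 a a a a ↔ R.zero (h a))
  succ : ∀ a b, S.op 100 a a a a → S.op 100 b b b b → (S.op 103 a b b b ↔ R.succ (h a) (h b))
  add : ∀ a b c, S.op 100 a a a a → S.op 100 b b b b → S.op 100 c c c c →
    (S.op 104 a b c c ↔ R.add (h a) (h b) (h c))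
  mul : ∀ a b c, S.op 100 a a a a → S.op 100 b b b b → S.op 100 c c c c →
    (S.op 105 a b c c ↔ R.mul (h a) (h b) (h c))
  op : ∀ i a b c d, S.op 100 a a a a → (S.op 106 a a a a ↔ R.op i (h a) b c d)

/-- Statement: satisfaction of translated formulas. -/
def SatTr : Prop := ∀ (S R : Str ℕ) (h : S.M → R.M), TrRel S R h → ∀ (φ : Fml) (v : ℕ → S.M),
  (∀ x, φ.Free x → S.op 100 (v x) (v x) (v x) (v x)) →
  (Fm.Sat S (tr φ) v ↔ Fm.Sat R φ (fun x => h (v x)))

/-- Statement: congruences and quotients. -/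
def CongIff : Prop := ∀ S : Str ℕ, Cong S ↔ ∃ (R : Str ℕ) (h : S.M → R.M), TrRel S R h

/-- Statement: the interpretability relation is recursively enumerable. -/
def RrRE : Prop := ∀ σ0 Γ0 P : Fml, REPred (fun p : ℕ × ℕ => Rr σ0 Γ0 P p.1 p.2)

/-- Statement: the first claim. -/
def Claim1 : Prop := ∀ (P σ0 Γ0 : Fml) (c : ℕ), HalRep P →
  (∀ (S : Str ℕ) (v : ℕ → S.M), Fm.Sat S σ0 v ↔ AxSem P S) →
  (∀ (S : Str ℕ) (v : ℕ → S.M), Fm.Sat S Γ0 v ↔ Cong S) →
  (∀ n, (∃ s, Hal c s n) ↔ Rr σ0 Γ0 P c n) → ∀ n, ¬ Rr σ0 Γ0 P c n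

/-- Statement: the completeness theorem, with countable models. -/
def CComp : Prop := ∀ (T : List Fml) (φ : Fml), (∀ ψ ∈ T, ψ.Closed) → φ.Closed →
  (∀ (S : Str ℕ) (v : ℕ → S.M), Countable S.M → (∀ ψ ∈ T, Fm.Sat S ψ v) → Fm.Sat S φ v) →
  Pv (fun ψ => ψ ∈ T) φ

/-! ### The theory -/

/-- the type of the node `y` of height `s` is `1` -/
def TyS (M : Type) [LU.Structure M] : ℕ → M → Prop
  | 0, y => Structure.RelMap (L := LU) URel.col ![y]
  | s + 1, y => ∃ z, Structure.RelMap (L := LU) URel.ch ![y, z] ∧ ¬ TyS M s z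

/-- `y` is the number `s` -/
def NumS (M : Type) [LU.Structure M] : ℕ → M → Prop
  | 0, y => Structure.RelMap (L := LU) URel.zero ![y]
  | s + 1, y => ∃ z, Structure.RelMap (L := LU) URel.succ ![z, y] ∧ NumS M s z

/-- The axioms of the theory `UT P`. -/
structure UTSem (P : Fml) (M : Type) [LU.Structure M] [Nonempty M] : Prop where
  e : ∃ x : M, ∀ y : M, ¬ Structure.RelMap (L := LU) URel.mem ![y, x]
  adj : ∀ x y : M, ∃ z : M, ∀ w : M, Structure.RelMap (L := LU) URel.mem ![w, z] ↔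
    (Structure.RelMap (L := LU) URel.mem ![w, x] ∨ w = y)
  q : ∀ ψ ∈ robinson, ∀ v : ℕ → M, Fm.Sat (arS M) ψ v
  a1 : ∀ (i : ℕ) (x : M), NumS M i x → ∃ j d r : M, Structure.RelMap (L := LU) URel.zero ![j] ∧
    Structure.RelMap (L := LU) URel.rt ![r, x, j, d] ∧ TyS M i r
  a2 : ∀ (i : ℕ) (x : M), NumS M i x → ∀ j d r : M,
    Structure.RelMap (L := LU) URel.rt ![r, x, j, d] → TyS M i r →
    ∃ j' d' r' : M, Structure.RelMap (L := LU) URel.succ ![j, j'] ∧
      Structure.RelMap (L := LU) URel.rt ![r', x, j', d'] ∧ TyS M i r'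
  a3 : ∀ (i : ℕ) (x : M), NumS M i x → ∀ j d r : M,
    Structure.RelMap (L := LU) URel.rt ![r, x, j, d] → TyS M i r →
    ¬ Fm.Sat (arS M) P (fun y => if y = 3 then j else x)

/-- Statement: the models of the theory. -/
def UTIff : Prop := ∀ (P : Fml) (M : Type) [LU.Structure M] [Nonempty M],
  M ⊨ UT P ↔ UTSem P M

/-- Statement: the theory is sequential. -/
def UTSeq : Prop := ∀ P : Fml, IsSequential (UT P)

/-- Statement: the theory is recursively enumerable. -/
def UTRE : Prop := ∀ P : Fml, IsRE (UT P)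

/-- Statement: the language is finite. -/
def LUFin : Prop := Finite (Σ n, LU.Functions n) ∧ Finite (Σ n, LU.Relations n)

/-! ### Ehrenfeucht-Fraïssé games -/

/-- the quantifier rank -/
def qr {L : FirstOrder.Language.{0, 0}} {α : Type} : ∀ {n : ℕ}, L.BoundedFormula α n → ℕ
  | _, .falsum => 0
  | _, .equal _ _ => 0
  | _, .rel _ _ => 0
  | _, .imp φ ψ => max (qr φ) (qr ψ)
  | _, .all φ => qr φ + 1

/-- The condition `p` agrees with `C`. -/
def Agr (S : Str ℕ) (p : S.M) (C : S.M → Prop) : Prop :=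
  ∀ r, S.op 11 p r r r → (S.op 12 p r r r ↔ C r)

/-- `C` can be approximated by conditions. -/
def Apx (S : Str ℕ) (C : S.M → Prop) : Prop :=
  ∀ p, ∃ p', (∀ r, S.op 11 p r r r ↔ S.op 11 p' r r r) ∧ Agr S p' C

/-- `C` and `C'` agree on the low roots. -/
def LowAgr (S : Str ℕ) (C C' : S.M → Prop) : Prop := ∀ r, S.op 20 r r r r → (C r ↔ C' r)

/-- `f` is a matching of quality `k` between conditions that agree with `C` and `C'`. -/
def Fk (S : Str ℕ) (k : S.M) (C C' : S.M → Prop) (f : S.M) : Prop :=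
  ∃ p p', Agr S p C ∧ Agr S p' C' ∧ S.op 14 k p p' f

/-- Statement: the numbers smaller than `n`. -/
def LowS : Prop := ∀ (P : Fml) (S : Str ℕ) (q : Q S) (n : ℕ), AxSem P S →
  S.op 17 (q.nm n) (q.nm n) (q.nm n) (q.nm n) →
  ∀ k, S.op 16 (q.nm k) (q.nm k) (q.nm k) (q.nm k) ↔ k < n

/-- Statement: formulas of quantifier rank at most `k` are preserved by matchings of quality `k`.
-/
def EFS : Prop := ∀ (P : Fml) (S : Str ℕ) (q : Q S) (n : ℕ) (C C' : S.M → Prop), AxSem P S →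
  S.op 17 (q.nm n) (q.nm n) (q.nm n) (q.nm n) → Apx S C → Apx S C' → LowAgr S C C' →
  ∀ (α : Type) (l : ℕ) (φ : LU.BoundedFormula α l) (k : ℕ), qr φ ≤ k → k < n →
  ∀ f, Fk S (q.nm k) C C' f → ∀ (v v' : α → S.M) (xs xs' : Fin l → S.M),
    (∀ a, S.op 13 f (v a) (v' a) (v' a)) → (∀ i, S.op 13 f (xs i) (xs' i) (xs' i)) →
    (φ.Realize (M := MU S C) v xs ↔ φ.Realize (M := MU S C') v' xs')

/-- Statement: matchings whose domain contains a given tuple. -/
def CovS : Prop := ∀ (P : Fml) (S : Str ℕ) (q : Q S) (n : ℕ) (C C' : S.M → Prop), AxSem P S →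
  S.op 17 (q.nm n) (q.nm n) (q.nm n) (q.nm n) → Apx S C → Apx S C' → LowAgr S C C' →
  ∀ k l : ℕ, k + l < n →
    (∀ w : Fin l → S.M, ∃ f, Fk S (q.nm k) C C' f ∧ ∃ w' : Fin l → S.M,
      ∀ i, S.op 13 f (w i) (w' i) (w' i)) ∧
    (∀ w' : Fin l → S.M, ∃ f, Fk S (q.nm k) C C' f ∧ ∃ w : Fin l → S.M,
      ∀ i, S.op 13 f (w i) (w' i) (w' i))

/-- Statement: two matchings are connected by two involutions. -/
def SymS : Prop := ∀ (P : Fml) (S : Str ℕ) (q : Q S) (n : ℕ) (C C' : S.M → Prop), AxSem P S →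
  S.op 17 (q.nm n) (q.nm n) (q.nm n) (q.nm n) → Apx S C → Apx S C' → LowAgr S C C' →
  ∀ k : ℕ, k + 1 < n → ∀ f g, Fk S (q.nm k) C C' f → Fk S (q.nm k) C C' g →
    ∃ e e', Fk S (q.nm k) C' C' e ∧ Fk S (q.nm k) C' C' e' ∧
      ∀ x x1 x2, S.op 13 f x x1 x1 → S.op 13 g x x2 x2 →
        ∃ y, S.op 13 e x1 y y ∧ S.op 13 e y x1 x1 ∧ S.op 13 e' y x2 x2 ∧ S.op 13 e' x2 y y

/-- The formulas of the translation have quantifier rank at most `k`. -/
structure RankLe {L' L : FirstOrder.Language.{0, 0}} (N : Interp L' L) (k : ℕ) : Prop where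
  dom : qr N.dom ≤ k
  eqv : qr N.eqv ≤ k
  func : ∀ (n : ℕ) (F : L'.Functions n), qr (N.func F) ≤ k
  rel : ∀ (n : ℕ) (R : L'.Relations n), qr (N.rel R) ≤ k

/-- Statement: every translation has a rank. -/
def ExRank : Prop := ∀ N : Interp LBA LU, ∃ k, RankLe N k

/-- Statement: the structure defined by `N` does not change if `C'` is replaced by `C`. -/
def TransferS : Prop := ∀ (P : Fml) (S : Str ℕ) (q : Q S) (n : ℕ) (C C' : S.M → Prop),
  AxSem P S → S.op 17 (q.nm n) (q.nm n) (q.nm n) (q.nm n) → Apx S C → Apx S C' →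
  LowAgr S C C' → ∀ (N : Interp LBA LU) (k : ℕ), RankLe N k → k + 3 * N.dim + 1 < n →
  ∀ (A : Type) [LBA.Structure A] (f : N.Dom (MU S C') → A), N.Realizes (MU S C') A f →
    (∀ x y : A, Structure.RelMap (L := LBA) BARel.le ![x, y] ∨
      Structure.RelMap (L := LBA) BARel.le ![y, x]) →
    (∀ x y : A, Structure.RelMap (L := LBA) BARel.le ![x, y] →
      Structure.RelMap (L := LBA) BARel.le ![y, x] → x = y) →
    ∃ g : N.Dom (MU S C) → A, N.Realizes (MU S C) A g

/-! ### The external colouring -/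

/-- The internal types of the roots. -/
def CtS (S : Str ℕ) (r : S.M) : Prop := S.op 6 r r r r

/-- Statement: the internal colouring can be approximated. -/
def CtApx : Prop := ∀ (P : Fml) (S : Str ℕ), AxSem P S → Apx S (CtS S)

/-- The properties of the external colouring. -/
structure Ext (S : Str ℕ) (q : Q S) (n : ℕ) (C : S.M → Prop) : Prop where
  apx : Apx S C
  low : ∀ r, S.op 20 r r r r → (C r ↔ CtS S r)
  ex : ∀ i l, n ≤ i → ∃ r d, S.op 3 r (q.nm i) (q.nm l) d ∧ C r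
  num : ∀ i j d r, n ≤ i → S.op 3 r (q.nm i) j d → C r → ∃ l, j = q.nm l

/-- Statement: existence of the external colouring. -/
def ExtS : Prop := ∀ (P : Fml) (S : Str ℕ) (q : Q S) (n : ℕ), Countable S.M → AxSem P S →
  S.op 17 (q.nm n) (q.nm n) (q.nm n) (q.nm n) → ∃ C, Ext S q n C

/-- Statement: the structure given by the external colouring is a model of the theory. -/
def MUModel : Prop := ∀ (P : Fml) (S : Str ℕ) (q : Q S) (c n : ℕ) (C : S.M → Prop), HalRep P →
  AxSem P S → S.op 17 (q.nm n) (q.nm n) (q.nm n) (q.nm n) →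
  S.op 18 (q.nm c) (q.nm c) (q.nm c) (q.nm c) → (∀ s i, ¬ Hal c s i) → Ext S q n C →
  UTSem (inst 2 c P) (MU S C)

/-! ### Interpretations -/

/-- Statement: translation of formulas, general form. -/
def TranslateG : Prop := ∀ (L' L : FirstOrder.Language.{0, 0}) (K : Interp L' L) (β : Type)
  (m : ℕ) (φ : L'.BoundedFormula β m), ∃ ψ : L.Formula ((β ⊕ Fin m) × Fin K.dim),
  ∀ (M : Type) [L.Structure M] (A : Type) [L'.Structure A] (f : K.Dom M → A), K.Realizes M A f →
  ∀ (y : β → K.Dom M) (x : Fin m → K.Dom M),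
    (ψ.Realize (fun p => (Sum.elim y x p.1).1 p.2) ↔
      φ.Realize (fun b => f (y b)) (fun i => f (x i)))

/-- Statement: translation of formulas. -/
def TranslateS : Prop := ∀ (L' L : FirstOrder.Language.{0, 0}) (K : Interp L' L) (m : ℕ)
  (φ : L'.BoundedFormula Empty m), ∃ ψ : L.Formula (Fin m × Fin K.dim),
  ∀ (M : Type) [L.Structure M] (A : Type) [L'.Structure A] (f : K.Dom M → A), K.Realizes M A f →
  ∀ x : Fin m → K.Dom M,
    (ψ.Realize (fun p => (x p.1).1 p.2) ↔ φ.Realize default (fun i => f (x i)))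

/-- Statement: composition of interpretations. -/
def CompS : Prop := ∀ (L L' L'' : FirstOrder.Language.{0, 0}) (K : Interp L'' L')
  (N : Interp L' L), ∃ KN : Interp L'' L, ∀ (M : Type) [L.Structure M] (A : Type)
  [L'.Structure A] (B : Type) [L''.Structure B] (f : N.Dom M → A) (g : K.Dom A → B),
  N.Realizes M A f → K.Realizes A B g → ∃ h : KN.Dom M → B, KN.Realizes M B h

/-- Statement: the formulas of the language `LU` in the structure given by the internal colouring.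
-/
def UDForm : Prop := ∀ (α : Type) [Finite α] (m : ℕ) (φ : LU.BoundedFormula α m),
  UD (β := α ⊕ Fin m) (fun S w =>
    φ.Realize (M := MU S (CtS S)) (fun a => w (Sum.inl a)) (fun i => w (Sum.inr i)))

/-- `x` is a code of the tuple `w`. -/
def Cdt (S : Str ℕ) : ∀ D : ℕ, S.M → (Fin D → S.M) → Prop
  | 0, _, _ => True
  | D + 1, x, w => ∃ y, S.op 15 (w 0) y x x ∧ Cdt S D y (fun i => w i.succ)

/-- Statement: the codes of tuples. -/
def CdtS : Prop := ∀ (P : Fml) (S : Str ℕ), AxSem P S → ∀ D : ℕ,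
  (∀ w : Fin D → S.M, ∃ x, Cdt S D x w) ∧ ∀ x (w w' : Fin D → S.M), Cdt S D x w → Cdt S D x w' →
    w = w'

/-- The elements `x i` are codes of tuples `w i` of the domain of `N` for which `χ` holds. -/
def RelN (N : Interp LU LU) {m : ℕ} (χ : LU.Formula (Fin m × Fin N.dim)) (S : Str ℕ)
    (x : Fin m → S.M) : Prop :=
  ∃ w : Fin m → Fin N.dim → S.M,
    (∀ i, Cdt S N.dim (x i) (w i) ∧ N.dom.Realize (M := MU S (CtS S)) (w i)) ∧
      χ.Realize (M := MU S (CtS S)) (fun p => w p.1 p.2)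

/-- Statement: uniform definability of these relations. -/
def UDInt : Prop := ∀ (N : Interp LU LU) (m : ℕ) (χ : LU.Formula (Fin m × Fin N.dim)),
  UD (β := Fin m) (fun S x => RelN N χ S x)

end Pool.Agent.Helper364_SQ
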