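import Pool.Agent.Helper364_SQ.Defs
import Pool.Agent.TH636.BC.Defs

/-!
# The sequential theory
-/

set_option autoImplicit false

namespace Pool.Agent.Helper364_SQ

open FirstOrder FirstOrder.Language
open Pool.Agent.TH672 (Fm Str upd)
open Pool.Agent.TH636.BC (Fml)

/-- The relation symbols of the theory: membership, `ch x y` (`y` is a child of `x`), `col x` (the
leaf `x` is coloured), `rt r i j d` (`r` is the root of the tree of level `i` at `(j, d)`), and the
symbols of arithmetic: zero, successor, addition and multiplication (as relations). -/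
inductive URel : ℕ → Type
  | mem : URel 2
  | ch : URel 2
  | col : URel 1
  | rt : URel 4
  | zero : URel 1
  | succ : URel 2
  | add : URel 3
  | mul : URel 3

/-- The language of the theory. -/
def LU : FirstOrder.Language.{0, 0} := ⟨fun _ => Empty, URel⟩

instance : LU.IsRelational := fun _ => inferInstanceAs (IsEmpty Empty)

/-- a variable -/
def vr {n : ℕ} (i : Fin n) : LU.Term (Empty ⊕ Fin n) := Term.var (Sum.inr i)

/-- `tyF s y`: the node `y` of height `s` has type `1`. -/
def tyF : ℕ → ∀ {n : ℕ}, Fin n → LU.BoundedFormula Empty n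
  | 0, _, y => .rel URel.col ![vr y]
  | s + 1, n, y => ∃' (.rel URel.ch ![vr y.castSucc, vr (Fin.last n)] ⊓ ∼(tyF s (Fin.last n)))

/-- `numF s y`: `y` is the number `s`. -/
def numF : ℕ → ∀ {n : ℕ}, Fin n → LU.BoundedFormula Empty n
  | 0, _, y => .rel URel.zero ![vr y]
  | s + 1, n, y => ∃' (.rel URel.succ ![vr (Fin.last n), vr y.castSucc] ⊓ numF s (Fin.last n))

/-- Formulas of arithmetic as formulas of the language `LU`; `e` gives the levels of the variables.
-/
def toL : Fml → ∀ (n : ℕ), (ℕ → Fin n) → LU.BoundedFormula Empty n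
  | .bot, _, _ => ⊥
  | .eq x y, _, e => .equal (vr (e x)) (vr (e y))
  | .zero x, _, e => .rel URel.zero ![vr (e x)]
  | .succ x y, _, e => .rel URel.succ ![vr (e x), vr (e y)]
  | .add x y z, _, e => .rel URel.add ![vr (e x), vr (e y), vr (e z)]
  | .mul x y z, _, e => .rel URel.mul ![vr (e x), vr (e y), vr (e z)]
  | .op _ _ _ _ _, _, _ => ⊥
  | .imp φ ψ, n, e => (toL φ n e).imp (toL ψ n e)
  | .all x φ, n, e => (toL φ (n + 1) (upd (fun y => (e y).castSucc) x (Fin.last n))).all

/-- the levels of the variables `3` and `4` in the last axiom -/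
def env (x : ℕ) : Fin 4 := if x = 3 then 1 else 0

/-- the first part of the axiom: zero belongs to the cut -/
def part1 (i : ℕ) : LU.BoundedFormula Empty 1 :=
  ∃' ∃' ∃' (.rel URel.zero ![vr 1] ⊓ (.rel URel.rt ![vr 3, vr 0, vr 1, vr 2] ⊓ tyF i (3 : Fin 4)))

/-- the second part of the axiom: the cut is closed under successor -/
def part2 (i : ℕ) : LU.BoundedFormula Empty 1 :=
  ∀' ∀' ∀' ((.rel URel.rt ![vr 3, vr 0, vr 1, vr 2]) ⟹ (tyF i (3 : Fin 4) ⟹
    ∃' ∃' ∃' (.rel URel.succ ![vr 1, vr 4] ⊓ (.rel URel.rt ![vr 6, vr 0, vr 4, vr 5] ⊓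
      tyF i (6 : Fin 7)))))

/-- the third part of the axiom: the formula `P` fails at all members of the cut -/
def part3 (P : Fml) (i : ℕ) : LU.BoundedFormula Empty 1 :=
  ∀' ∀' ∀' ((.rel URel.rt ![vr 3, vr 0, vr 1, vr 2]) ⟹ (tyF i (3 : Fin 4) ⟹ ∼(toL P 4 env)))

/-- The axiom number `i`. The set of all `j` such that for some `d` the root of the tree of level
`i` at `(j, d)` has type `1` contains zero, is closed under successor, and does not contain any `j`
for which `P(j, i)` is true (the variables of `P` are `3` and `4`). -/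
def axA (P : Fml) (i : ℕ) : LU.Sentence :=
  (∀' (numF i (0 : Fin 1) ⟹ (part1 i ⊓ (part2 i ⊓ part3 P i))) : LU.BoundedFormula Empty 0)

/-- The empty set exists. -/
def axE : LU.Sentence :=
  (∃' ∀' ∼(.rel URel.mem ![vr 1, vr 0]) : LU.BoundedFormula Empty 0)

/-- Adjunction. -/
def axAdj : LU.Sentence :=
  (∀' ∀' ∃' ∀' ((.rel URel.mem ![vr 3, vr 2]) ⇔ ((.rel URel.mem ![vr 3, vr 0]) ⊔
    (.equal (vr 3) (vr 1)))) : LU.BoundedFormula Empty 0)

/-- The axioms of Robinson arithmetic. -/
def axQ (ψ : Fml) : LU.Sentence :=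
  (∀' (toL ψ 1 (fun _ => 0)) : LU.BoundedFormula Empty 0)

/-- The theory. -/
def UT (P : Fml) : LU.Theory :=
  {axE, axAdj} ∪ {σ | ∃ ψ ∈ TH636.BC.robinson, σ = axQ ψ} ∪ {σ | ∃ i : ℕ, σ = axA P i}

/-! ### Structures -/

/-- The arithmetical part of an `LU`-structure. -/
def arS (M : Type) [LU.Structure M] [ne : Nonempty M] : Str ℕ where
  M := M
  ne := ne
  zero x := Structure.RelMap (L := LU) URel.zero ![x]
  succ x y := Structure.RelMap (L := LU) URel.succ ![x, y]
  add x y z := Structure.RelMap (L := LU) URel.add ![x, y, z]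
  mul x y z := Structure.RelMap (L := LU) URel.mul ![x, y, z]
  op _ _ _ _ _ := False

/-- The universe of the `LU`-structure given by a structure `S` and a set `C` of roots. -/
def MU (S : Str ℕ) (_C : S.M → Prop) : Type := S.M

/-- the colour of the leaf `x` if the roots in `C` have type `1` -/
def Col (S : Str ℕ) (C : S.M → Prop) (x : S.M) : Prop :=
  ∃ r k, S.op 9 x r r r ∧ S.op 10 x k k k ∧ S.zero k ∧
    ((C r ∧ S.op 8 x x x x) ∨ (¬ C r ∧ S.op 7 x x x x))

/-- the relations of the structure `MU S C` -/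
def muRel (S : Str ℕ) (C : S.M → Prop) : ∀ {n : ℕ}, URel n → (Fin n → S.M) → Prop
  | _, .mem, x => S.op 1 (x 0) (x 1) (x 1) (x 1)
  | _, .ch, x => S.op 2 (x 0) (x 1) (x 1) (x 1)
  | _, .col, x => Col S C (x 0)
  | _, .rt, x => S.op 3 (x 0) (x 1) (x 2) (x 3)
  | _, .zero, x => S.zero (x 0)
  | _, .succ, x => S.succ (x 0) (x 1)
  | _, .add, x => S.add (x 0) (x 1) (x 2)
  | _, .mul, x => S.mul (x 0) (x 1) (x 2)

instance (S : Str ℕ) (C : S.M → Prop) : LU.Structure (MU S C) where
  funMap f := isEmptyElim f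
  RelMap R x := muRel S C R x

instance (S : Str ℕ) (C : S.M → Prop) : Nonempty (MU S C) := S.ne

end Pool.Agent.Helper364_SQ
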